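import Mathlib
import Pool.Agent.Helper82.FiniteArea

/-!
# Minimal surfaces of finite area and groups of critical exponent at most one: notation
-/

open MeasureTheory MeasureTheory.Measure Module Set Filter Topology
open scoped ENNReal NNReal Gradient RealInnerProductSpace ContDiff

namespace Pool.Agent.Helper45.MS

open Pool.Agent.Helper82

/-- The part of `V` orthogonal to the unit vector `N`. -/
noncomputable def tang (N V : E3) : E3 := V - ⟪V, N⟫ • N

/-- The kernel `cosh (dist (q, p)) ^ (-s)`. -/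
noncomputable def bs (s : ℝ) (p : H3) (q : E3) : ℝ := CD p q ^ (-s)

/-- The hyperbolic gradient of `cosh (dist (·, p))`. -/
noncomputable def ZC (p : H3) (q : E3) : E3 := q 2 ^ 2 • ∇ (CD p) q

/-- The Poincare series of exponent `s`. -/
noncomputable def Ps (Γ : Subgroup (Equiv.Perm H3)) (s : ℝ) (q : E3) : ℝ :=
  ∑' γ : Γ, bs s (op γ) q

/-- Hyperbolic derivative of `cosh (dist (·, p))` in the direction of the Euclidean unit
vector `N`. -/
noncomputable def nu (p : H3) (q N : E3) : ℝ := q 2 * fderiv ℝ (CD p) q N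

/-- One term of the error sum. -/
noncomputable def rt (s : ℝ) (p : H3) (q N : E3) : ℝ := CD p q ^ (-s - 2) * (1 + nu p q N ^ 2)

/-- The error sum. -/
noncomputable def RR (Γ : Subgroup (Equiv.Perm H3)) (s : ℝ) (q N : E3) : ℝ :=
  (∑' γ : Γ, rt s (op γ) q N) / Ps Γ s q

/-- Squared hyperbolic length of the part orthogonal to `N` of the gradient of the logarithm of
the Poincare series. -/
noncomputable def GT (Γ : Subgroup (Equiv.Perm H3)) (s : ℝ) (q N : E3) : ℝ :=
  q 2 ^ 2 * (‖∇ (Ps Γ s) q‖ ^ 2 - ⟪∇ (Ps Γ s) q, N⟫ ^ 2) / Ps Γ s q ^ 2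

/-- A totally geodesic plane in coordinates (if `0 < B ^ 2 + C ^ 2 - 4 * A * D`). -/
def PL (A B C D : ℝ) : Set H3 :=
  {q | A * ‖(q : E3)‖ ^ 2 + B * (q : E3) 0 + C * (q : E3) 1 + D = 0}

end Pool.Agent.Helper45.MS
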