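import Mathlib
import Pool.Agent.Helper45.MS.Base
import Pool.Agent.Helper82.Rigid

/-!
# A minimal surface inside a totally geodesic plane is the whole plane

PROOF. `PL`: `A = 0` is a vertical half-plane (convex), `A ≠ 0` is a hemisphere, the image of an open disc under
`z ↦ (z, sqrt (r^2 - |z - z0|^2))`, `r^2 = (B^2 + C^2 - 4 A D)/(4 A^2)`. `exists_open_subset_PL`: copy of
`exists_open_subset` in Helper82/Rigid.lean with `pf A B C D` instead of the coordinate `q 1` (take a second chart, for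
`pf` itself, with the same basis `b'`, after `gradient_parallel`; two points of the zero set of `pf` near `p` with the
same projection agree). `eq_PL`: copy of `eq_plane`.
-/

open MeasureTheory MeasureTheory.Measure Module Set Filter Topology
open scoped ENNReal NNReal Gradient RealInnerProductSpace ContDiff

namespace Pool.Agent.Helper45.MS

open Pool.Agent.Helper82

variable {A B C D : ℝ}

/-- The defining function. -/
noncomputable def pf (A B C D : ℝ) (q : E3) : ℝ := A * ‖q‖ ^ 2 + B * q 0 + C * q 1 + D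

lemma rig_norm_sq (q : E3) : ‖q‖ ^ 2 = q 0 ^ 2 + q 1 ^ 2 + q 2 ^ 2 := by
  rw [EuclideanSpace.real_norm_sq_eq, Fin.sum_univ_three]

lemma rig_inner_ev (i : Fin 3) (v : E3) : ⟪ev i, v⟫ = v i := by
  rw [ev, EuclideanSpace.inner_single_left]
  simp

lemma rig_hasFDerivAt_pf (q : E3) : HasFDerivAt (pf A B C D)
    (A • (2 • (innerSL ℝ q : E3 →L[ℝ] ℝ)) + B • pr 0 + C • pr 1) q := by
  have h1 : HasFDerivAt (fun q : E3 => ‖q‖ ^ 2) (2 • (innerSL ℝ q : E3 →L[ℝ] ℝ)) q :=
    (hasStrictFDerivAt_norm_sq q).hasFDerivAt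
  have h2 := (((h1.const_mul A).add ((hasFDerivAt_coord 0 q).const_mul B)).add
    ((hasFDerivAt_coord 1 q).const_mul C)).add_const D
  exact h2

lemma gradient_pf (q : E3) : ∇ (pf A B C D) q = (2 * A) • q + B • ev 0 + C • ev 1 := by
  apply ext_inner_right ℝ
  intro v
  rw [inner_gradient_left, (rig_hasFDerivAt_pf q).fderiv, inner_add_left, inner_add_left,
    inner_smul_left, inner_smul_left, inner_smul_left, rig_inner_ev, rig_inner_ev]
  simp only [conj_trivial, ContinuousLinearMap.add_apply, ContinuousLinearMap.smul_apply,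
    pr_apply, smul_eq_mul, innerSL_apply_apply, nsmul_eq_mul]
  push_cast
  ring

lemma norm_gradient_pf (q : E3) :
    ‖∇ (pf A B C D) q‖ ^ 2 = 4 * A * pf A B C D q + (B ^ 2 + C ^ 2 - 4 * A * D) := by
  rw [gradient_pf, pf, rig_norm_sq, rig_norm_sq]
  simp [ev]
  ring

lemma isPreconnected_PL (hK : 0 < B ^ 2 + C ^ 2 - 4 * A * D) :
    IsPreconnected (PL A B C D) := by
  have h1 : IsPreconnected (Subtype.val '' (PL A B C D) : Set E3) := by
    by_cases hA : A = 0
    · subst hA
      have h2 : (Subtype.val '' (PL 0 B C D) : Set E3) =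
          (B • pr 0 + C • pr 1 : E3 →L[ℝ] ℝ) ⁻¹' {-D} ∩ {q | 0 < q 2} := by
        ext q
        constructor
        · rintro ⟨p, hp, rfl⟩
          refine ⟨?_, p.2⟩
          have h3 : 0 * ‖(p : E3)‖ ^ 2 + B * (p : E3) 0 + C * (p : E3) 1 + D = 0 := hp
          change B * (p : E3) 0 + C * (p : E3) 1 = -D
          linarith
        · rintro ⟨h3, h4⟩
          refine ⟨⟨q, h4⟩, ?_, rfl⟩
          change B * q 0 + C * q 1 = -D at h3
          change 0 * ‖q‖ ^ 2 + B * q 0 + C * q 1 + D = 0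
          linarith
      rw [h2]
      apply Convex.isPreconnected
      apply Convex.inter
      · exact (convex_singleton (-D)).is_linear_preimage
          ((B • pr 0 + C • pr 1 : E3 →L[ℝ] ℝ) : E3 →ₗ[ℝ] ℝ).isLinear
      · exact (convex_Ioi (0:ℝ)).is_linear_preimage (pr 2 : E3 →ₗ[ℝ] ℝ).isLinear
    · set R : ℝ := (B ^ 2 + C ^ 2 - 4 * A * D) / (4 * A ^ 2) with hR
      have hA2 : 0 < 4 * A ^ 2 := by positivity
      have hRpos : 0 < R := div_pos hK hA2
      set β : ℝ := B / (2 * A) with hβ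
      set γ : ℝ := C / (2 * A) with hγ
      have hkey : ∀ x y z : ℝ, A * (x ^ 2 + y ^ 2 + z ^ 2) + B * x + C * y + D =
          A * ((x + β) ^ 2 + (y + γ) ^ 2 + z ^ 2 - R) := by
        intro x y z
        rw [hR, hβ, hγ]
        field_simp
        ring
      set Gm : E2 → E3 := fun x => !₂[x 0 - β, x 1 - γ, √(R - ‖x‖ ^ 2)] with hGm
      have hGc : Continuous Gm := by
        rw [hGm]
        refine (PiLp.continuous_toLp 2 _).comp ?_
        refine continuous_pi ?_
        intro i
        fin_cases i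
        · change Continuous fun x : E2 => x 0 - β
          fun_prop
        · change Continuous fun x : E2 => x 1 - γ
          fun_prop
        · change Continuous fun x : E2 => √(R - ‖x‖ ^ 2)
          fun_prop
      have hG0 : ∀ x, Gm x 0 = x 0 - β := fun x => rfl
      have hG1 : ∀ x, Gm x 1 = x 1 - γ := fun x => rfl
      have hG2 : ∀ x, Gm x 2 = √(R - ‖x‖ ^ 2) := fun x => rfl
      have hn2 : ∀ x : E2, ‖x‖ ^ 2 = x 0 ^ 2 + x 1 ^ 2 := by
        intro x
        rw [EuclideanSpace.real_norm_sq_eq, Fin.sum_univ_two]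
      have h2 : (Subtype.val '' (PL A B C D) : Set E3) = Gm '' Metric.ball 0 √R := by
        ext q
        constructor
        · rintro ⟨p, hp, rfl⟩
          have h3 : A * ‖(p : E3)‖ ^ 2 + B * (p : E3) 0 + C * (p : E3) 1 + D = 0 := hp
          have h4 : 0 < (p : E3) 2 := p.2
          rw [rig_norm_sq, hkey] at h3
          have h5 : ((p : E3) 0 + β) ^ 2 + ((p : E3) 1 + γ) ^ 2 + (p : E3) 2 ^ 2 - R = 0 := by
            rcases mul_eq_zero.1 h3 with h | h
            · exact absurd h hA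
            · exact h
          set x : E2 := !₂[(p : E3) 0 + β, (p : E3) 1 + γ] with hx
          have hx0 : x 0 = (p : E3) 0 + β := rfl
          have hx1 : x 1 = (p : E3) 1 + γ := rfl
          have hxn : ‖x‖ ^ 2 = R - (p : E3) 2 ^ 2 := by
            rw [hn2, hx0, hx1]
            linarith
          refine ⟨x, ?_, ?_⟩
          · rw [mem_ball_zero_iff]
            apply Real.lt_sqrt_of_sq_lt
            rw [hxn]
            nlinarith
          · ext i
            fin_cases i
            · change x 0 - β = (p : E3) 0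
              rw [hx0]
              ring
            · change x 1 - γ = (p : E3) 1
              rw [hx1]
              ring
            · change √(R - ‖x‖ ^ 2) = (p : E3) 2
              rw [hxn, sub_sub_cancel, Real.sqrt_sq h4.le]
        · rintro ⟨x, hx, rfl⟩
          rw [mem_ball_zero_iff] at hx
          have h3 : ‖x‖ ^ 2 < R := by
            have h4 := Real.sq_sqrt hRpos.le
            have h5 := norm_nonneg x
            nlinarith
          have h4 : 0 < Gm x 2 := by
            rw [hG2]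
            exact Real.sqrt_pos.2 (by linarith)
          refine ⟨⟨Gm x, h4⟩, ?_, rfl⟩
          change A * ‖Gm x‖ ^ 2 + B * Gm x 0 + C * Gm x 1 + D = 0
          rw [rig_norm_sq, hkey, hG0, hG1, hG2, Real.sq_sqrt (by linarith), hn2]
          ring
      rw [h2]
      exact ((convex_ball (0 : E2) √R).isPreconnected).image Gm hGc.continuousOn
  exact (Topology.IsInducing.subtypeVal.isPreconnected_image).1 h1

lemma exists_open_subset_PL (hK : 0 < B ^ 2 + C ^ 2 - 4 * A * D) {S : Set H3}
    (hS : IsMinimalIn wt UH (Subtype.val '' S)) (hsub : S ⊆ PL A B C D) {p : H3} (hp : p ∈ S) :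
    ∃ O : Set H3, IsOpen O ∧ p ∈ O ∧ O ∩ PL A B C D ⊆ S := by
  obtain ⟨F, b, W, V, ψ, hpW, h⟩ := hS.exists_goodChart (mem_val_image.2 hp)
  have hpf0 : pf A B C D (p : E3) = 0 := hsub hp
  obtain ⟨c, hc⟩ := h.chart.gradient_parallel h.mem_iff hpW (mem_val_image.2 hp)
    (F' := pf A B C D) (rig_hasFDerivAt_pf (p : E3)).differentiableAt
    (Eventually.of_forall fun y hy => by
      obtain ⟨z, hz, rfl⟩ := hy
      exact hsub hz)
  have hn2 : 0 < ‖∇ (pf A B C D) (p : E3)‖ ^ 2 := by
    rw [norm_gradient_pf, hpf0]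
    linarith
  set n : E3 := ∇ (pf A B C D) (p : E3) with hn
  have hnpos : 0 < ‖n‖ := by
    have := norm_nonneg n
    nlinarith
  have hc0 : c ≠ 0 := by
    rintro rfl
    rw [zero_smul] at hc
    rw [hc, norm_zero] at hnpos
    exact lt_irrefl _ hnpos
  have hgF : ∇ F (p : E3) = c⁻¹ • n := by rw [hc, smul_smul, inv_mul_cancel₀ hc0, one_smul]
  set σ : ℝ := ((SignType.sign c⁻¹ : SignType) : ℝ) with hσ
  have hci : c⁻¹ ≠ 0 := inv_ne_zero hc0
  have hσabs : |σ| = 1 := by
    rcases lt_or_gt_of_ne hci with h | h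
    · rw [hσ, sign_neg h]; simp
    · rw [hσ, sign_pos h]; simp
  have hσ2 : σ * σ = 1 := by
    rw [← abs_mul_abs_self, hσabs, one_mul]
  obtain ⟨b', hb'⟩ := exists_basis (u := (σ * ‖n‖⁻¹) • n) (by
    rw [norm_smul, Real.norm_eq_abs, abs_mul, hσabs, one_mul, abs_inv, abs_norm,
      inv_mul_cancel₀ hnpos.ne'])
  have hnn : ⟪n, b' 2⟫ = σ * ‖n‖ := by
    rw [hb', inner_smul_right, real_inner_self_eq_norm_mul_norm]
    field_simp
  have hpos : 0 < fderiv ℝ F (p : E3) (b' 2) := by
    rw [← inner_gradient_left, hgF, inner_smul_left, hnn]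
    simp only [conj_trivial]
    have h1 : c⁻¹ * (σ * ‖n‖) = |c⁻¹| * ‖n‖ := by
      rw [← sign_mul_self c⁻¹, ← hσ]
      ring
    rw [h1]
    exact mul_pos (abs_pos.2 hci) hnpos
  set F2 : E3 → ℝ := fun q => σ * pf A B C D q with hF2
  have hpos2 : 0 < fderiv ℝ F2 (p : E3) (b' 2) := by
    have h1 : HasFDerivAt F2 _ (p : E3) := (rig_hasFDerivAt_pf (A := A) (B := B) (C := C) (D := D)
      (p : E3)).const_mul σ
    have h2 : fderiv ℝ F2 (p : E3) (b' 2) = σ * fderiv ℝ (pf A B C D) (p : E3) (b' 2) := by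
      rw [h1.fderiv, (rig_hasFDerivAt_pf (p : E3)).fderiv]
      rfl
    rw [h2, ← inner_gradient_left, ← hn, hnn, ← mul_assoc, hσ2, one_mul]
    exact hnpos
  have hF2c : ContDiffOn ℝ 2 F2 univ := by
    rw [contDiffOn_univ, hF2]
    unfold pf
    have h0 : ContDiff ℝ 2 fun q : E3 => q 0 := (pr 0).contDiff
    have h1 : ContDiff ℝ 2 fun q : E3 => q 1 := (pr 1).contDiff
    have h3 : ContDiff ℝ 2 fun q : E3 => ‖q‖ ^ 2 := contDiff_norm_sq ℝ
    exact contDiff_const.mul ((((contDiff_const.mul h3).add (contDiff_const.mul h0)).add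
      (contDiff_const.mul h1)).add contDiff_const)
  obtain ⟨W', V', ψ', hpW', hW'W, hch⟩ := exists_chart h.chart.isOpenW h.chart.contF hpW hpos
  obtain ⟨W₂, V₂, ψ₂, hpW₂, -, hch₂⟩ := exists_chart isOpen_univ hF2c (mem_univ (p : E3)) hpos2
  have hproj : projL b' (p : E3) ∈ V' ∧ ψ' (projL b' (p : E3)) = p :=
    hch.surj _ hpW' ((h.mem_iff _ hpW).1 (mem_val_image.2 hp))
  have hopen : IsOpen (V' ∩ ψ' ⁻¹' W₂) :=
    hch.contψ.continuousOn.isOpen_inter_preimage hch.isOpenV hch₂.isOpenW
  refine ⟨Subtype.val ⁻¹' ((W' ∩ W₂) ∩ projL b' ⁻¹' (V' ∩ ψ' ⁻¹' W₂)), ?_,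
    ⟨⟨hpW', hpW₂⟩, hproj.1, ?_⟩, ?_⟩
  · exact ((hch.isOpenW.inter hch₂.isOpenW).inter
      (hopen.preimage (projL b').continuous)).preimage continuous_subtype_val
  · change ψ' (projL b' (p : E3)) ∈ W₂
    rw [hproj.2]
    exact hpW₂
  · rintro q ⟨⟨⟨hqW, hqW₂⟩, hqV, hqψ⟩, hqP⟩
    set z := ψ' (projL b' (q : E3)) with hz
    have hzW : z ∈ W' := hch.maps _ hqV
    have hzW₂ : z ∈ W₂ := hqψ
    have hzS : z ∈ Subtype.val '' S := (h.mem_iff _ (hW'W hzW)).2 (hch.zero _ hqV)
    obtain ⟨z', hz', hzz'⟩ := hzS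
    have hz1 : F2 z = 0 := by
      have : pf A B C D z = 0 := by
        rw [← hzz']
        exact hsub hz'
      simp only [hF2, this, mul_zero]
    have hq1 : F2 (q : E3) = 0 := by
      have : pf A B C D (q : E3) = 0 := hqP
      simp only [hF2, this, mul_zero]
    have h1 : projL b' z = projL b' (q : E3) := hch.proj _ hqV
    have h2 := (hch₂.surj _ hzW₂ hz1).2
    have h3 := (hch₂.surj _ hqW₂ hq1).2
    have h4 : z = (q : E3) := by rw [← h2, ← h3, h1]
    have : z' = q := Subtype.ext (hzz'.trans h4)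
    rwa [this] at hz'

theorem eq_PL (hK : 0 < B ^ 2 + C ^ 2 - 4 * A * D) {S : Set H3}
    (hS : IsMinimalIn wt UH (Subtype.val '' S)) (hne : S.Nonempty) (hsub : S ⊆ PL A B C D) :
    S = PL A B C D := by
  refine Subset.antisymm hsub ?_
  have hcl : IsOpen (Sᶜ : Set H3) := by
    have h1 : Sᶜ = Subtype.val ⁻¹' (UH \ (Subtype.val '' S)) := by
      ext q
      constructor
      · intro hq
        exact ⟨q.2, fun h => hq (mem_val_image.1 h)⟩
      · rintro ⟨-, hq⟩ hqS
        exact hq (mem_val_image.2 hqS)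
    rw [h1]
    exact hS.isOpen_diff.preimage continuous_subtype_val
  choose! O hO hpO hOS using fun (p : H3) (hp : p ∈ S) => exists_open_subset_PL hK hS hsub hp
  have h := isPreconnected_iff_subset_of_disjoint.1 (isPreconnected_PL hK)
    (⋃ p ∈ S, O p) Sᶜ (isOpen_biUnion fun p hp => hO p hp) hcl
    (fun q _ => by
      by_cases hqS : q ∈ S
      · exact Or.inl (mem_biUnion hqS (hpO q hqS))
      · exact Or.inr hqS)
    (by
      rw [eq_empty_iff_forall_notMem]
      rintro q ⟨hqP, hq1, hq2⟩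
      simp only [mem_iUnion] at hq1
      obtain ⟨p, hp, hqp⟩ := hq1
      exact hq2 (hOS p hp ⟨hqp, hqP⟩))
  rcases h with h | h
  · intro q hq
    have h1 := h hq
    simp only [mem_iUnion] at h1
    obtain ⟨p, hp, hqp⟩ := h1
    exact hOS p hp ⟨hqp, hq⟩
  · obtain ⟨p, hp⟩ := hne
    exact absurd hp (h (hsub hp))

end Pool.Agent.Helper45.MS
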