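import Mathlib
import Pool.Agent.Helper45.MS.Rig
import Pool.Agent.Helper82.PlaneMinimal

/-!
# Totally geodesic planes are minimal

PROOF. With `F = pf A B C D`: `grad F = (2Ax + B, 2Ay + C, 2At)`, `norm (grad F)^2 = 4 A F + K`, and the Euclidean
divergence of `grad F / norm (grad F)` is `4A / norm (grad F)`; `t^2 * (fderiv of t^(-2)) (grad F / norm)` is
`- 4A / norm (grad F)`: the sum is 0. Model: Helper82/PlaneMinimal.lean. For the last theorem take
`W = {q | 0 < 4 A pf q + K}`.
-/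

open MeasureTheory MeasureTheory.Measure Module Set Filter Topology
open scoped ENNReal NNReal Gradient RealInnerProductSpace ContDiff

namespace Pool.Agent.Helper45.MS

open Pool.Agent.Helper82

variable {A B C D : ℝ}

lemma contDiff_pf : ContDiff ℝ 2 (pf A B C D) := by
  unfold pf
  have h0 : ContDiff ℝ 2 (fun q : E3 => q 0) := (pr 0).contDiff
  have h1 : ContDiff ℝ 2 (fun q : E3 => q 1) := (pr 1).contDiff
  exact (((contDiff_const.mul (contDiff_norm_sq ℝ)).add (contDiff_const.mul h0)).add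
    (contDiff_const.mul h1)).add contDiff_const

lemma hasFDerivAt_pf (q : E3) :
    HasFDerivAt (pf A B C D) (innerSL ℝ (∇ (pf A B C D) q)) q := by
  have h1 : DifferentiableAt ℝ (pf A B C D) q := (contDiff_pf.differentiable (by norm_num)) q
  have h2 : innerSL ℝ (∇ (pf A B C D) q) = fderiv ℝ (pf A B C D) q := by
    ext v
    rw [innerSL_apply_apply]
    exact inner_gradient_left
  rw [h2]
  exact h1.hasFDerivAt

lemma meanCurvature_pf {q : E3} (hq : 0 < q 2) (h0 : ∇ (pf A B C D) q ≠ 0) :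
    meanCurvature (pf A B C D) q = 0 := by
  unfold meanCurvature hdiv
  set G : E3 → E3 := fun y => (2 * A) • y + (B • ev 0 + C • ev 1) with hG
  have hgr : ∀ y, ∇ (pf A B C D) y = G y := fun y => by
    rw [gradient_pf, add_assoc]
  have hGne : G q ≠ 0 := by rw [← hgr]; exact h0
  have hn : 0 < ‖G q‖ := norm_pos_iff.2 hGne
  have hGd : HasFDerivAt G ((2 * A) • ContinuousLinearMap.id ℝ E3) q :=
    ((hasFDerivAt_id q).const_smul (2 * A)).add_const _
  have h1 : dv (fun y => (y 2 ^ 3)⁻¹ • ((hnorm y (hgrad (pf A B C D) y))⁻¹ •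
      hgrad (pf A B C D) y)) q = dv (fun y => (wt y * ‖G y‖⁻¹) • G y) q := by
    apply dv_congr
    have hne : ∀ᶠ y in 𝓝 q, G y ≠ 0 := hGd.continuousAt.eventually_ne hGne
    filter_upwards [isOpen_UH.mem_nhds hq, hne] with y hy hy2
    have hy' : 0 < y 2 := hy
    have hny : 0 < ‖G y‖ := norm_pos_iff.2 hy2
    unfold hnorm hgrad wt
    rw [hgr, norm_smul, Real.norm_of_nonneg (by positivity), smul_smul, smul_smul]
    congr 1
    field_simp
  set g : E3 → ℝ := fun y => 4 * A * pf A B C D y + (B ^ 2 + C ^ 2 - 4 * A * D) with hg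
  have hgn : ∀ y, ‖G y‖ = √(g y) := fun y => by
    rw [hg, ← hgr]
    simp only
    rw [← norm_gradient_pf, Real.sqrt_sq (norm_nonneg _)]
  have hgq : g q = ‖G q‖ ^ 2 := by rw [← hgr, norm_gradient_pf]
  have hgne : g q ≠ 0 := by rw [hgq]; positivity
  have hgd : HasFDerivAt g ((4 * A) • innerSL ℝ (G q)) q := by
    have := ((hasFDerivAt_pf (A := A) (B := B) (C := C) (D := D) q).const_mul (4 * A)).add_const
      (B ^ 2 + C ^ 2 - 4 * A * D)
    rwa [hgr] at this
  have hsd : HasFDerivAt (fun y => √(g y)) ((1 / (2 * √(g q))) • ((4 * A) • innerSL ℝ (G q))) q :=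
    hgd.sqrt hgne
  have hsq : √(g q) ≠ 0 := by rw [← hgn]; exact hn.ne'
  have hid : HasFDerivAt (fun y => (‖G y‖)⁻¹)
      ((-(‖G q‖ ^ 2)⁻¹) • ((1 / (2 * ‖G q‖)) • ((4 * A) • innerSL ℝ (G q)))) q := by
    have h2 := (hasDerivAt_inv hsq).comp_hasFDerivAt q hsd
    rw [← hgn] at h2
    refine h2.congr_of_eventuallyEq (Eventually.of_forall fun y => ?_)
    simp only [Function.comp_apply, hgn]
  have hwd := hasFDerivAt_wt hq
  have hmul := hwd.mul hid
  have h2 : dv (fun y => (wt y * ‖G y‖⁻¹) • G y) q = (wt q * ‖G q‖⁻¹) * dv G q +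
      fderiv ℝ (fun y => wt y * ‖G y‖⁻¹) q (G q) :=
    dv_smul hmul.differentiableAt hGd.differentiableAt
  have h3 : dv G q = 6 * A := by
    let b := EuclideanSpace.basisFun (Fin 3) ℝ
    rw [dv_eq_sum b, hGd.fderiv]
    simp only [_root_.smul_apply, ContinuousLinearMap.id_apply, inner_smul_right]
    have hb : ∀ i, ⟪b i, b i⟫ = (1 : ℝ) := fun i => by
      rw [real_inner_self_eq_norm_sq, b.norm_eq_one]; norm_num
    rw [hb, hb, hb]
    ring
  have h4 : (G q) 2 = 2 * A * q 2 := by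
    simp [hG, ev]
  have h5 : fderiv ℝ (fun y => wt y * ‖G y‖⁻¹) q (G q) = - (6 * A) * (wt q * ‖G q‖⁻¹) := by
    have h6 : fderiv ℝ (fun y => wt y * ‖G y‖⁻¹) q = _ := hmul.fderiv
    rw [h6]
    simp only [_root_.add_apply, _root_.smul_apply, smul_eq_mul, innerSL_apply_apply, pr_apply,
      real_inner_self_eq_norm_sq, h4, wt]
    field_simp
    ring
  rw [h1, h2, h3, h5]
  ring

lemma PL_nonempty (hK : 0 < B ^ 2 + C ^ 2 - 4 * A * D) : (PL A B C D).Nonempty := by
  have key : ∀ x y t : ℝ, ∀ ht : 0 < t, A * (x ^ 2 + y ^ 2 + t ^ 2) + B * x + C * y + D = 0 →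
      (PL A B C D).Nonempty := by
    intro x y t ht h
    refine ⟨⟨!₂[x, y, t], by simpa using ht⟩, ?_⟩
    unfold PL
    simp only [mem_ofPred_eq, EuclideanSpace.norm_sq_eq, Fin.sum_univ_three, Real.norm_eq_abs,
      sq_abs]
    simpa using h
  rcases eq_or_ne A 0 with hA | hA
  · subst hA
    have h1 : 0 < B ^ 2 + C ^ 2 := by linarith
    refine key (-(D * B) / (B ^ 2 + C ^ 2)) (-(D * C) / (B ^ 2 + C ^ 2)) 1 one_pos ?_
    field_simp
    ring
  · have h2 : 0 < √(B ^ 2 + C ^ 2 - 4 * A * D) := Real.sqrt_pos.2 hK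
    have h3 : 0 < |2 * A| := by positivity
    refine key (-B / (2 * A)) (-C / (2 * A)) (√(B ^ 2 + C ^ 2 - 4 * A * D) / |2 * A|)
      (by positivity) ?_
    rw [div_pow (√_), Real.sq_sqrt hK.le, sq_abs]
    field_simp
    ring

theorem isMinimalSurface_of_lift_eq_PL (hK : 0 < B ^ 2 + C ^ 2 - 4 * A * D)
    {Γ : Subgroup (Equiv.Perm H3)} {S : Set (Helper82.Mfd Γ)} (h : Helper82.lift Γ S = PL A B C D) :
    Helper82.IsMinimalSurface Γ S where
  nonempty := by
    obtain ⟨p, hp⟩ := PL_nonempty hK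
    rw [← h] at hp
    exact ⟨_, hp⟩
  isClosed := by
    have h1 : IsClosed (PL A B C D) := by
      have hc : Continuous fun q : H3 => pf A B C D (q : E3) :=
        (contDiff_pf (A := A) (B := B) (C := C) (D := D)).continuous.comp continuous_subtype_val
      exact isClosed_eq hc continuous_const
    rw [← h] at h1
    exact (isQuotientMap_quotient_mk'.isClosed_preimage (s := S)).1 h1
  level := by
    intro p hp
    have hcont : Continuous (pf A B C D) := contDiff_pf.continuous
    have hW : ∀ q : E3, 0 < 4 * A * pf A B C D q + (B ^ 2 + C ^ 2 - 4 * A * D) →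
        ∇ (pf A B C D) q ≠ 0 := by
      intro q hq h0
      rw [← norm_gradient_pf, h0] at hq
      simp at hq
    refine ⟨{q | 0 < 4 * A * pf A B C D q + (B ^ 2 + C ^ 2 - 4 * A * D)}, pf A B C D,
      isOpen_lt continuous_const (by fun_prop), ?_, contDiff_pf.contDiffOn, hW, ?_, ?_⟩
    · rw [h] at hp
      have hp' : pf A B C D (p : E3) = 0 := hp
      simp only [mem_ofPred_eq, hp']
      linarith
    · intro q _
      rw [h]
      rfl
    · intro q hq _
      exact meanCurvature_pf q.2 (hW _ hq)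

end Pool.Agent.Helper45.MS
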