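import Mathlib
import Pool.Agent.Helper45.MS.Base

/-!
# The first variation integrand of the field `ζ ∇ cosh (dist (·, p))`

With `t = q 2`, `tau = p 2` and the foot `f = (p 0, p 1, 0)` of `p` one has
`ZC p q = tau⁻¹ (t (q - f) - (|q - f| ^ 2 + tau ^ 2) / 2 * e_2)`; its derivative in direction `v` is
`tau⁻¹ (t v + v_2 (q - f) - ⟪q - f, v⟫ e_2)`, a multiple of the identity plus an antisymmetric map.
-/

open MeasureTheory MeasureTheory.Measure Module Set Filter Topology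
open scoped ENNReal NNReal Gradient RealInnerProductSpace ContDiff

namespace Pool.Agent.Helper45.MS

open Pool.Agent.Helper82

/-- The foot of `p`. -/
noncomputable def FV_foot (p : H3) : E3 := (p : E3) - (p : E3) 2 • ev 2

/-- The polynomial form of `ZC`. -/
noncomputable def FV_Z (p : H3) (y : E3) : E3 :=
  ((p : E3) 2)⁻¹ •
    (y 2 • (y - FV_foot p) - ((1 / 2 : ℝ) * (‖y - FV_foot p‖ ^ 2 + (p : E3) 2 ^ 2)) • ev 2)

lemma FV_inner_ev2 (v : E3) : ⟪ev 2, v⟫ = v 2 := by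
  rw [ev, EuclideanSpace.inner_single_left]
  simp

lemma FV_foot0 (p : H3) : FV_foot p 0 = (p : E3) 0 := by
  simp [FV_foot, ev]

lemma FV_foot1 (p : H3) : FV_foot p 1 = (p : E3) 1 := by
  simp [FV_foot, ev]

lemma FV_foot2 (p : H3) : FV_foot p 2 = 0 := by
  simp [FV_foot, ev]

lemma FV_inner (p : H3) (q v : E3) : ⟪q - FV_foot p, v⟫ =
    (q 0 - (p : E3) 0) * v 0 + (q 1 - (p : E3) 1) * v 1 + q 2 * v 2 := by
  rw [PiLp.inner_apply, Fin.sum_univ_three]
  simp only [PiLp.sub_apply, FV_foot0, FV_foot1, FV_foot2]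
  simp
  ring

lemma FV_norm (p : H3) (q : E3) : ‖q - FV_foot p‖ ^ 2 =
    (q 0 - (p : E3) 0) ^ 2 + (q 1 - (p : E3) 1) ^ 2 + q 2 ^ 2 := by
  rw [norm_sq_eq]
  simp only [PiLp.sub_apply, FV_foot0, FV_foot1, FV_foot2]
  ring

lemma FV_inner_ZC (p : H3) (q v : E3) : ⟪ZC p q, v⟫ = q 2 ^ 2 * fderiv ℝ (CD p) q v := by
  rw [ZC, inner_smul_left, inner_gradient_left]
  simp

lemma ZC_eq (p : H3) {q : E3} (hq : 0 < q 2) : ZC p q = FV_Z p q := by
  have hp := p.2
  have hp' : 0 < (p : E3) 2 := hp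
  refine ext_inner_right ℝ fun v => ?_
  rw [FV_inner_ZC, (hasFDerivAt_CD p hq).fderiv, FV_Z, inner_smul_left, inner_sub_left,
    inner_smul_left, inner_smul_left, FV_inner_ev2, FV_inner, FV_norm]
  simp only [_root_.smul_apply, smul_eq_mul, pr_apply, _root_.add_apply, CD, conj_trivial]
  field_simp
  ring

lemma FV_hasFDerivAt (p : H3) (q : E3) : HasFDerivAt (FV_Z p)
    (((p : E3) 2)⁻¹ • ((q 2 • ContinuousLinearMap.id ℝ E3 + (pr 2).smulRight (q - FV_foot p)) -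
      (innerSL ℝ (q - FV_foot p)).smulRight (ev 2))) q := by
  have h1 : HasFDerivAt (fun y : E3 => y - FV_foot p) (ContinuousLinearMap.id ℝ E3) q :=
    (hasFDerivAt_id q).sub_const _
  have h2 : HasFDerivAt (fun y : E3 => y 2 • (y - FV_foot p))
      (q 2 • ContinuousLinearMap.id ℝ E3 + (pr 2).smulRight (q - FV_foot p)) q :=
    (hasFDerivAt_coord 2 q).fun_smul h1
  have h3 : HasFDerivAt (fun y : E3 => ‖y - FV_foot p‖ ^ 2)
      ((2 : ℝ) • (innerSL ℝ (q - FV_foot p)).comp (ContinuousLinearMap.id ℝ E3)) q := by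
    have := h1.norm_sq
    refine this.congr_fderiv ?_
    ext v
    simp
  have h4 : HasFDerivAt (fun y : E3 => (1 / 2 : ℝ) * (‖y - FV_foot p‖ ^ 2 + (p : E3) 2 ^ 2))
      (innerSL ℝ (q - FV_foot p)) q := by
    have h5 := (h3.add_const ((p : E3) 2 ^ 2)).const_mul (1 / 2 : ℝ)
    refine h5.congr_fderiv ?_
    ext v
    simp
  have h6 : HasFDerivAt (fun y : E3 =>
      ((1 / 2 : ℝ) * (‖y - FV_foot p‖ ^ 2 + (p : E3) 2 ^ 2)) • ev 2)
      ((innerSL ℝ (q - FV_foot p)).smulRight (ev 2)) q := h4.smul_const _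
  exact (h2.fun_sub h6).fun_const_smul _

lemma FV_fderiv (p : H3) {q : E3} (hq : 0 < q 2) (v : E3) : fderiv ℝ (ZC p) q v =
    ((p : E3) 2)⁻¹ • ((q 2 • v + v 2 • (q - FV_foot p)) - ⟪q - FV_foot p, v⟫ • ev 2) := by
  have h1 : ZC p =ᶠ[𝓝 q] FV_Z p := by
    filter_upwards [isOpen_UH.mem_nhds (show q ∈ UH from hq)] with y hy
    exact ZC_eq p hy
  rw [h1.fderiv_eq, (FV_hasFDerivAt p q).fderiv]
  rfl

lemma FV_inner_fderiv (p : H3) {q : E3} (hq : 0 < q 2) (v : E3) :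
    ⟪fderiv ℝ (ZC p) q v, v⟫ = q 2 / (p : E3) 2 * ‖v‖ ^ 2 := by
  rw [FV_fderiv p hq, inner_smul_left, inner_sub_left, inner_add_left, inner_smul_left,
    inner_smul_left, inner_smul_left, FV_inner_ev2, real_inner_self_eq_norm_sq]
  simp only [conj_trivial]
  ring

lemma contDiffOn_ZC (p : H3) : ContDiffOn ℝ 1 (ZC p) UH := by
  have h1 : ContDiff ℝ 1 (FV_Z p) := by
    have h2 : ContDiff ℝ 1 (fun y : E3 => y - FV_foot p) := contDiff_id.sub contDiff_const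
    have h3 : ContDiff ℝ 1 (fun y : E3 => y 2) := by fun_prop
    have h4 : ContDiff ℝ 1 (fun y : E3 => (1 / 2 : ℝ) * (‖y - FV_foot p‖ ^ 2 + (p : E3) 2 ^ 2)) :=
      contDiff_const.mul ((h2.norm_sq ℝ).add contDiff_const)
    have h5 : ContDiff ℝ 1 (fun y : E3 =>
        ((1 / 2 : ℝ) * (‖y - FV_foot p‖ ^ 2 + (p : E3) 2 ^ 2)) • ev 2) := h4.smul contDiff_const
    exact ((h3.smul h2).sub h5).const_smul _
  exact h1.contDiffOn.congr fun q hq => ZC_eq p hq

lemma FV_differentiableAt (p : H3) {q : E3} (hq : 0 < q 2) : DifferentiableAt ℝ (ZC p) q :=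
  ((contDiffOn_ZC p).contDiffAt (isOpen_UH.mem_nhds hq)).differentiableAt (by norm_num)

lemma FV_dv (p : H3) {q : E3} (hq : 0 < q 2) : dv (ZC p) q = 3 * (q 2 / (p : E3) 2) := by
  let b := EuclideanSpace.basisFun (Fin 3) ℝ
  have hb : ∀ i, ‖b i‖ = 1 := fun i => b.orthonormal.1 i
  rw [dv_eq_sum b, real_inner_comm, FV_inner_fderiv p hq, real_inner_comm, FV_inner_fderiv p hq,
    real_inner_comm, FV_inner_fderiv p hq, hb, hb, hb]
  ring

/-- Since the Hessian of `C = cosh (dist (·, p))` is `C` times the metric. -/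
lemma FV_ZC {ζ : E3 → ℝ} {N : E3 → E3} (p : H3) {q : E3} (hq : 0 < q 2)
    (hζ : DifferentiableAt ℝ ζ q) (hN : ‖N q‖ = 1) :
    FV wt N (fun y => ζ y • ZC p y) q =
      wt q * (2 * ζ q * CD p q + fderiv ℝ ζ q (tang (N q) (ZC p q))) := by
  have hp : 0 < (p : E3) 2 := p.2
  have h1 : fderiv ℝ (fun y => ζ y • ZC p y) q (N q) =
      ζ q • fderiv ℝ (ZC p) q (N q) + fderiv ℝ ζ q (N q) • ZC p q := by
    rw [fderiv_fun_smul hζ (FV_differentiableAt p hq)]
    rfl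
  have h3 : ZC p q 2 = q 2 ^ 2 / (p : E3) 2 - q 2 * CD p q := by
    have h4 := FV_inner_ZC p q (ev 2)
    rw [real_inner_comm, FV_inner_ev2, (hasFDerivAt_CD p hq).fderiv] at h4
    rw [h4]
    simp only [_root_.smul_apply, smul_eq_mul, pr_apply, _root_.add_apply]
    simp [ev]
    field_simp
  have h2 : fderiv ℝ wt q (ζ q • ZC p q) =
      wt q * (ζ q * (-2 * (q 2 / (p : E3) 2) + 2 * CD p q)) := by
    rw [(hasFDerivAt_wt hq).fderiv]
    simp only [_root_.smul_apply, pr_apply, smul_eq_mul, wt, PiLp.smul_apply, h3]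
    field_simp
    ring
  rw [FV, dv_smul hζ (FV_differentiableAt p hq), FV_dv p hq, h1, h2, tang, map_sub,
    map_smul, inner_add_left, inner_smul_left, inner_smul_left, FV_inner_fderiv p hq, hN]
  simp only [smul_eq_mul, conj_trivial]
  ring

lemma FV_inner_ZC_self (p : H3) {q : E3} (hq : 0 < q 2) :
    ⟪ZC p q, ZC p q⟫ = q 2 ^ 2 * (CD p q ^ 2 - 1) := by
  have hp : 0 < (p : E3) 2 := p.2
  have h3 : ∀ i, ZC p q i = q 2 ^ 2 * fderiv ℝ (CD p) q (ev i) := by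
    intro i
    have h4 := FV_inner_ZC p q (ev i)
    rw [ev, EuclideanSpace.inner_single_right] at h4
    simpa [ev] using h4
  rw [real_inner_self_eq_norm_sq, norm_sq_eq, h3, h3, h3, (hasFDerivAt_CD p hq).fderiv]
  simp only [_root_.smul_apply, smul_eq_mul, pr_apply, _root_.add_apply, CD]
  simp [ev]
  field_simp
  ring

lemma fderiv_CD_tang (p : H3) {q N : E3} (hq : 0 < q 2) (hN : ‖N‖ = 1) :
    fderiv ℝ (CD p) q (tang N (ZC p q)) = CD p q ^ 2 - 1 - nu p q N ^ 2 := by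
  have h1 := FV_inner_ZC_self p hq
  rw [FV_inner_ZC] at h1
  have h2 : fderiv ℝ (CD p) q (ZC p q) = CD p q ^ 2 - 1 :=
    mul_left_cancel₀ (pow_ne_zero 2 hq.ne') h1
  rw [tang, map_sub, map_smul, h2, FV_inner_ZC, nu, smul_eq_mul]
  ring

lemma norm_tang_ZC_le (p : H3) {q N : E3} (hq : 0 < q 2) (hN : ‖N‖ = 1) :
    ‖tang N (ZC p q)‖ ≤ q 2 * CD p q := by
  have hC : 0 < CD p q := CD_pos p ⟨q, hq⟩
  rw [← pow_le_pow_iff_left₀ (norm_nonneg _) (by positivity) two_ne_zero, tang,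
    ← real_inner_self_eq_norm_sq]
  simp only [inner_sub_left, inner_sub_right, inner_smul_left, inner_smul_right, conj_trivial,
    real_inner_self_eq_norm_sq N, hN, real_inner_comm (ZC p q) N, FV_inner_ZC_self p hq]
  nlinarith [sq_nonneg ⟪ZC p q, N⟫, sq_nonneg (q 2)]

lemma nu_sq_le (p : H3) {q N : E3} (hq : 0 < q 2) (hN : ‖N‖ = 1) :
    1 + nu p q N ^ 2 ≤ CD p q ^ 2 := by
  have h1 := real_inner_mul_inner_self_le (ZC p q) N
  rw [FV_inner_ZC_self p hq, real_inner_self_eq_norm_sq N, hN, FV_inner_ZC] at h1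
  have h2 : q 2 ^ 2 * (nu p q N ^ 2) ≤ q 2 ^ 2 * (CD p q ^ 2 - 1) := by
    rw [nu]
    nlinarith
  have h3 := le_of_mul_le_mul_left h2 (by positivity)
  linarith

end Pool.Agent.Helper45.MS
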