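import Mathlib
import Pool.Agent.Helper45.MS.Base

/-!
# The kernel of exponent `s` and its Poincare series

PROOF. Copy of Helper82/Kernel.lean (`bt`, exponent 3) and Helper82/Poincare.lean (`Ph`) with the
real exponent `-s` (`Real.rpow`; `CD p q` is positive, even at least 1, for `q : H3`). Harnack:
`CD p q' <= 2 * coshDist q' q * CD p q` (`coshDist_le`). `bs_op_smul`: as `bt_op_smul`. The sum: local
bounds as in `local_bound` (on the ball of radius `q0 2 / 2` around `q0`: `bs s p x <= (5/2)^s bs s p q0`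
and `norm (fderiv) <= s * bs s p x / x 2`), then `hasFDerivAt_tsum_of_isPreconnected`, `continuousOn_tsum`.
`summable_bs_oo_of`: `coshDist p (g p) <= 4 * (coshDist p oo)^2 * coshDist oo (g oo)`, and
`bs s (op g) oo = (coshDist oo (g oo))^(-s)` up to `g` and its inverse (isometry).
-/

open MeasureTheory MeasureTheory.Measure Module Set Filter Topology
open scoped ENNReal NNReal Gradient RealInnerProductSpace ContDiff

namespace Pool.Agent.Helper45.MS

open Pool.Agent.Helper82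

lemma bs_pos (s : ℝ) (p q : H3) : 0 < bs s p q := Real.rpow_pos_of_pos (CD_pos p q) _

lemma bs_coe (s : ℝ) (p q : H3) : bs s p q = coshDist q p ^ (-s) := by rw [bs, CD_coe]

private lemma rpow_aux {s a b c : ℝ} (hs : 0 ≤ s) (ha : 0 < a) (hb : 0 < b) (hc : 0 < c)
    (h : a ≤ c * b) : b ^ (-s) ≤ c ^ s * a ^ (-s) := by
  have h1 : (c * b) ^ (-s) ≤ a ^ (-s) :=
    Real.rpow_le_rpow_of_nonpos ha h (by linarith)
  have h2 : b ^ (-s) = c ^ s * (c * b) ^ (-s) := by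
    rw [Real.mul_rpow hc.le hb.le, ← mul_assoc, ← Real.rpow_add hc, add_neg_cancel,
      Real.rpow_zero, one_mul]
  rw [h2]
  exact mul_le_mul_of_nonneg_left h1 (Real.rpow_nonneg hc.le _)

private lemma bs_map (s : ℝ) {γ : Equiv.Perm H3} (hγ : γ ∈ HIsom) (p q : H3) :
    bs s p (γ q) = bs s (γ⁻¹ p) q := by
  rw [bs_coe, bs_coe]
  have h := hγ q (γ⁻¹ p)
  have e : γ (γ⁻¹ p) = p := γ.apply_symm_apply p
  rw [e] at h
  rw [h]

lemma hasFDerivAt_bs (s : ℝ) (p : H3) {q : E3} (hq : 0 < q 2) :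
    HasFDerivAt (bs s p) ((-(s * CD p q ^ (-s - 1))) • fderiv ℝ (CD p) q) q := by
  have hC : CD p q ≠ 0 := (CD_pos p ⟨q, hq⟩).ne'
  have h1 : HasFDerivAt (CD p) (fderiv ℝ (CD p) q) q :=
    (hasFDerivAt_CD p hq).differentiableAt.hasFDerivAt
  have h2 := h1.rpow_const (p := -s) (Or.inl hC)
  rw [neg_mul] at h2
  exact h2

lemma norm_fderiv_bs_le {s : ℝ} (hs : 0 ≤ s) (p : H3) {q : E3} (hq : 0 < q 2) :
    ‖fderiv ℝ (bs s p) q‖ * q 2 ≤ s * bs s p q := by
  have hC : 0 < CD p q := CD_pos p ⟨q, hq⟩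
  have hR : 0 ≤ CD p q ^ (-s - 1) := Real.rpow_nonneg hC.le _
  rw [(hasFDerivAt_bs s p hq).fderiv, norm_smul, mul_assoc, norm_neg, Real.norm_of_nonneg
    (mul_nonneg hs hR), bs]
  calc s * CD p q ^ (-s - 1) * (‖fderiv ℝ (CD p) q‖ * q 2) ≤ s * CD p q ^ (-s - 1) * CD p q :=
        mul_le_mul_of_nonneg_left (norm_fderiv_CD_le p hq) (mul_nonneg hs hR)
    _ = s * CD p q ^ (-s) := by
        rw [mul_assoc, ← Real.rpow_add_one hC.ne', sub_add_cancel]

lemma contDiffOn_bs (s : ℝ) (p : H3) : ContDiffOn ℝ ∞ (bs s p) UH := by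
  intro q hq
  exact (contDiffOn_CD p q hq).rpow_const_of_ne (CD_pos p ⟨q, hq⟩).ne'

lemma bs_harnack {s : ℝ} (hs : 0 ≤ s) (p q q' : H3) :
    bs s p q ≤ (2 * coshDist q q') ^ s * bs s p q' := by
  rw [bs_coe, bs_coe]
  have h1 := coshDist_le q' q p
  have h2 := lt_of_lt_of_le one_pos (one_le_coshDist q p)
  have h3 := lt_of_lt_of_le one_pos (one_le_coshDist q' p)
  have h4 := lt_of_lt_of_le one_pos (one_le_coshDist q q')
  rw [coshDist_comm q' q] at h1
  exact rpow_aux hs h3 h2 (by positivity) h1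

variable {Γ : Subgroup (Equiv.Perm H3)} {s : ℝ}

lemma bs_op_smul (hΓ : Γ ≤ HIsom) (s : ℝ) (γ g : Γ) (q : H3) :
    bs s (op γ) (g • q : H3) = bs s (op (γ * g)) q := by
  have h := bs_map s (hΓ g.2) (op γ) q
  have h2 : ((g : Equiv.Perm H3)⁻¹ : Equiv.Perm H3) (op γ) = op (γ * g) := by
    simp only [op]
    rw [mul_inv_rev, mul_smul]
    rfl
  rw [h2] at h
  exact h

lemma summable_bs (hs : 0 ≤ s) (hsum : Summable fun γ : Γ => bs s (op γ) oo) (q : H3) :
    Summable fun γ : Γ => bs s (op γ) q := by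
  have h := hsum.mul_left ((2 * coshDist q oo) ^ s)
  exact Summable.of_nonneg_of_le (fun γ => (bs_pos _ _ _).le) (fun γ => bs_harnack hs _ _ _) h

lemma Ps_pos (hs : 0 ≤ s) (hsum : Summable fun γ : Γ => bs s (op γ) oo) (q : H3) :
    0 < Ps Γ s q :=
  (summable_bs hs hsum q).tsum_pos (fun γ => (bs_pos _ _ _).le) 1 (bs_pos _ _ _)

lemma Ps_smul (hΓ : Γ ≤ HIsom) (s : ℝ) (g : Γ) (q : H3) : Ps Γ s (g • q : H3) = Ps Γ s q := by
  unfold Ps
  simp_rw [bs_op_smul hΓ]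
  exact (Equiv.mulRight g).tsum_eq (fun γ : Γ => bs s (op γ) q)

private lemma local_bs (hs : 0 ≤ s) (q0 : H3) {x : E3}
    (hx : x ∈ Metric.ball (q0 : E3) (1 / 2 * (q0 : E3) 2)) :
    ∃ hx0 : 0 < x 2, ∀ p : H3,
      ‖fderiv ℝ (bs s p) x‖ ≤ 2 * s * (5 / 2) ^ s / (q0 : E3) 2 * bs s p q0 := by
  obtain ⟨hx0, h1, h2⟩ := ball_facts (c := 1 / 2) le_rfl hx
  have hq0 := q0.2
  have h3 : (q0 : E3) 2 ≤ 2 * x 2 := by
    have h4 : |x 2 - (q0 : E3) 2| ≤ dist x q0 := by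
      have := dist_sq_eq x q0
      rw [← pow_le_pow_iff_left₀ (abs_nonneg _) dist_nonneg two_ne_zero, sq_abs, this]
      nlinarith [sq_nonneg (x 0 - (q0 : E3) 0), sq_nonneg (x 1 - (q0 : E3) 1)]
    rw [Metric.mem_ball] at hx
    rw [abs_le] at h4
    linarith [h4.1]
  refine ⟨hx0, fun p => ?_⟩
  have h8 := bs_pos s p q0
  have h5 : bs s p x ≤ (5 / 2) ^ s * bs s p q0 := by
    have h6 := bs_harnack hs p ⟨x, hx0⟩ q0
    have h7 := one_le_coshDist ⟨x, hx0⟩ q0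
    refine h6.trans (mul_le_mul_of_nonneg_right ?_ h8.le)
    refine Real.rpow_le_rpow (by linarith) ?_ hs
    linarith
  have h9 := norm_fderiv_bs_le hs p hx0
  have h12 : 1 ≤ 2 * x 2 / (q0 : E3) 2 := by rw [le_div_iff₀ hq0]; linarith
  have h13 : 0 ≤ (5 / 2 : ℝ) ^ s := Real.rpow_nonneg (by norm_num) _
  have h14 : 0 ≤ s * ((5 / 2) ^ s * bs s p q0) := mul_nonneg hs (mul_nonneg h13 h8.le)
  have h10 : ‖fderiv ℝ (bs s p) x‖ * x 2 ≤
      2 * s * (5 / 2) ^ s / (q0 : E3) 2 * bs s p q0 * x 2 := by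
    refine h9.trans ?_
    calc s * bs s p x ≤ s * ((5 / 2) ^ s * bs s p q0) := mul_le_mul_of_nonneg_left h5 hs
      _ ≤ s * ((5 / 2) ^ s * bs s p q0) * (2 * x 2 / (q0 : E3) 2) :=
        le_mul_of_one_le_right h14 h12
      _ = _ := by ring
  exact le_of_mul_le_mul_right h10 hx0

private lemma hasFDerivAt_Ps_ball (hs : 0 ≤ s) (hsum : Summable fun γ : Γ => bs s (op γ) oo)
    (q0 : H3) : (Summable fun γ : Γ => ‖fderiv ℝ (bs s (op γ)) q0‖) ∧
    ∀ x ∈ Metric.ball (q0 : E3) (1 / 2 * (q0 : E3) 2),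
    HasFDerivAt (Ps Γ s) (∑' γ : Γ, fderiv ℝ (bs s (op γ)) x) x := by
  have hq0 := q0.2
  have hu : Summable fun γ : Γ => 2 * s * (5 / 2) ^ s / (q0 : E3) 2 * bs s (op γ) q0 :=
    (summable_bs hs hsum q0).mul_left _
  have hmem : (q0 : E3) ∈ Metric.ball (q0 : E3) (1 / 2 * (q0 : E3) 2) :=
    Metric.mem_ball_self (by positivity)
  refine ⟨Summable.of_nonneg_of_le (fun _ => norm_nonneg _)
    (fun γ => (local_bs hs q0 hmem).2 _) hu, fun x hx => ?_⟩
  exact hasFDerivAt_tsum_of_isPreconnected hu Metric.isOpen_ball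
    (convex_ball _ _).isPreconnected
    (fun γ y hy => ((hasFDerivAt_bs s (op γ) (local_bs hs q0 hy).1).differentiableAt).hasFDerivAt)
    (fun γ y hy => (local_bs hs q0 hy).2 _) hmem (summable_bs hs hsum q0) hx

lemma hasFDerivAt_Ps (hs : 0 ≤ s) (hsum : Summable fun γ : Γ => bs s (op γ) oo) (q : H3) :
    HasFDerivAt (Ps Γ s) (∑' γ : Γ, fderiv ℝ (bs s (op γ)) q) q := by
  have hq := q.2
  exact (hasFDerivAt_Ps_ball hs hsum q).2 q (Metric.mem_ball_self (by positivity))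

lemma summable_norm_fderiv_bs (hs : 0 ≤ s) (hsum : Summable fun γ : Γ => bs s (op γ) oo)
    (q : H3) : Summable fun γ : Γ => ‖fderiv ℝ (bs s (op γ)) q‖ :=
  (hasFDerivAt_Ps_ball hs hsum q).1

lemma contDiffOn_Ps (hs : 0 ≤ s) (hsum : Summable fun γ : Γ => bs s (op γ) oo) :
    ContDiffOn ℝ 1 (Ps Γ s) UH := by
  have hdiff : DifferentiableOn ℝ (Ps Γ s) UH := fun q hq =>
    (hasFDerivAt_Ps hs hsum ⟨q, hq⟩).differentiableAt.differentiableWithinAt
  have hcont : ContinuousOn (fderiv ℝ (Ps Γ s)) UH := by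
    intro q hq
    apply ContinuousAt.continuousWithinAt
    have hq' : 0 < q 2 := hq
    let q0 : H3 := ⟨q, hq⟩
    set S := Metric.ball (q0 : E3) (1 / 2 * (q0 : E3) 2) with hS
    have hmem : S ∈ 𝓝 q := Metric.isOpen_ball.mem_nhds (Metric.mem_ball_self (by positivity))
    have h1 : ContinuousOn (fun x => ∑' γ : Γ, fderiv ℝ (bs s (op γ)) x) S := by
      refine continuousOn_tsum (fun γ => ?_) ((summable_bs hs hsum q0).mul_left
        (2 * s * (5 / 2) ^ s / (q0 : E3) 2)) (fun γ x hx => (local_bs hs q0 hx).2 _)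
      have h2 : ContinuousOn (fderiv ℝ (bs s (op γ))) UH :=
        (contDiffOn_bs s (op γ)).continuousOn_fderiv_of_isOpen isOpen_UH (by simp)
      exact h2.mono fun x hx => (local_bs hs q0 hx).1
    refine (h1.continuousAt hmem).congr ?_
    filter_upwards [hmem] with x hx
    exact ((hasFDerivAt_Ps_ball hs hsum q0).2 x hx).fderiv.symm
  have h := (contDiffOn_succ_iff_fderiv_of_isOpen (n := 0) (f := Ps Γ s) isOpen_UH).2
    ⟨hdiff, by simp, contDiffOn_zero.2 hcont⟩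
  simpa using h

lemma norm_fderiv_Ps_le (hs : 0 ≤ s) (hsum : Summable fun γ : Γ => bs s (op γ) oo) (q : H3) :
    ‖fderiv ℝ (Ps Γ s) q‖ * (q : E3) 2 ≤ s * Ps Γ s q := by
  have hq := q.2
  rw [(hasFDerivAt_Ps hs hsum q).fderiv]
  have h1 := norm_tsum_le_tsum_norm (summable_norm_fderiv_bs hs hsum q)
  have h2 : (∑' γ : Γ, ‖fderiv ℝ (bs s (op γ)) q‖) * (q : E3) 2 ≤ s * Ps Γ s q := by
    rw [← tsum_mul_right, Ps, ← tsum_mul_left]
    exact ((summable_norm_fderiv_bs hs hsum q).mul_right _).tsum_le_tsum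
      (fun γ => norm_fderiv_bs_le hs (op γ) hq) ((summable_bs hs hsum q).mul_left _)
  calc _ ≤ (∑' γ : Γ, ‖fderiv ℝ (bs s (op γ)) q‖) * (q : E3) 2 := by gcongr
    _ ≤ _ := h2

/-- Transfer of the convergence of the Poincare series to the base point. -/
lemma summable_bs_oo_of (hΓ : Γ ≤ HIsom) (hs : 0 ≤ s) (p : H3)
    (h : Summable fun γ : Γ => coshDist p (γ.1 p) ^ (-s)) :
    Summable fun γ : Γ => bs s (op γ) oo := by
  have hinv : Summable fun γ : Γ => coshDist p ((γ⁻¹ : Γ).1 p) ^ (-s) :=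
    (Equiv.inv Γ).summable_iff.2 h
  have hC := lt_of_lt_of_le one_pos (one_le_coshDist p oo)
  refine Summable.of_nonneg_of_le (fun γ => (bs_pos _ _ _).le) (fun γ => ?_)
    (hinv.mul_left ((4 * coshDist p oo ^ 2) ^ s))
  rw [bs_coe]
  have h1 : coshDist p ((γ⁻¹ : Γ).1 p) ≤ 4 * coshDist p oo ^ 2 * coshDist oo (op γ) := by
    have h2 := coshDist_le p oo ((γ⁻¹ : Γ).1 p)
    have h3 := coshDist_le oo (op γ) ((γ⁻¹ : Γ).1 p)
    have h4 : coshDist (op γ) ((γ⁻¹ : Γ).1 p) = coshDist p oo := by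
      have h5 := hΓ (γ⁻¹ : Γ).2 oo p
      rw [coshDist_comm p oo, ← h5]
      rfl
    rw [h4] at h3
    have h6 := lt_of_lt_of_le one_pos (one_le_coshDist oo (op γ))
    calc coshDist p ((γ⁻¹ : Γ).1 p) ≤ 2 * coshDist p oo * coshDist oo ((γ⁻¹ : Γ).1 p) := h2
      _ ≤ 2 * coshDist p oo * (2 * coshDist oo (op γ) * coshDist p oo) := by gcongr
      _ = _ := by ring
  exact rpow_aux hs (lt_of_lt_of_le one_pos (one_le_coshDist _ _))
    (lt_of_lt_of_le one_pos (one_le_coshDist _ _)) (by positivity) h1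

end Pool.Agent.Helper45.MS
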