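import Mathlib
import Pool.Agent.Helper45.MS.Ker
import Pool.Agent.Helper45.MS.FV

/-!
# Two good points of the surface

PROOF. `nu_expand` with explicit `κ`, writing `d = (x 0 - q 0)^2 + (x 1 - q 1)^2 + x 2^2 - q 2^2`:
`κ 0 = q 2 (N 0 - (x 0 - q 0) N 2 / x 2)`, `κ 1 = q 2 (N 1 - (x 1 - q 1) N 2 / x 2)`,
`κ 2 = (x 0 - q 0) N 0 + (x 1 - q 1) N 1 + x 2 N 2 - d N 2 / (2 x 2)` (use `hasFDerivAt_CD`, field_simp, ring; this is
the derivative in `x` of `C_p(x) = C_p(q) C_q(x) + ∂_0C_p(q) q2 (x0-q0)/x2 + ∂_1C_p(q) q2 (x1-q1)/x2 + ∂_2C_p(q) d/(2 x2)`).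
`endgame`: multiply `nu_expand` (direction `M` at `x`) by `CD p q ^ (-s-1) / Ps Γ s q`, `p = op γ`, and sum:
`∑ C_γ(q)^(-s-1) nu_γ(x,M) / Ps(q) = nu q x M - (1/s) fderiv (Ps Γ s) q κ / Ps(q)`.
The left side tends to 0: for every `ε > 0`, `|C^(-s-1) nu| <= (ε/2) C^(-s) + (1/(2ε)) C^(-s-2) nu^2`, and
`∑ C_γ(q)^(-s-2) nu_γ(x)^2 / Ps(q) <= (2 coshDist x q)^(2s+2) RR Γ s x M` by Harnack (`coshDist_le`, `bs_harnack`).
`fderiv (Ps) q / Ps(q) → 0`: in the direction `N`, `q2 fderiv Ps N / Ps = - s ∑ C^(-s-1) nu_γ(q,N)/Ps` tends to 0 in the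
same way by `h2`; and `q2^2 norm (grad Ps)^2 / Ps^2 = GT + (q2 fderiv Ps N / Ps)^2`, so by `h3` the whole gradient.
-/

open MeasureTheory MeasureTheory.Measure Module Set Filter Topology
open scoped ENNReal NNReal Gradient RealInnerProductSpace ContDiff

namespace Pool.Agent.Helper45.MS

open Pool.Agent.Helper82

variable {Γ : Subgroup (Equiv.Perm H3)}

lemma fderiv_CD_apply (p x : H3) (N : E3) : fderiv ℝ (CD p) x N =
    (((x : E3) 0 - (p : E3) 0) / ((x : E3) 2 * (p : E3) 2)) * N 0 +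
      (((x : E3) 1 - (p : E3) 1) / ((x : E3) 2 * (p : E3) 2)) * N 1 +
      (((p : E3) 2)⁻¹ - CD p x / (x : E3) 2) * N 2 := by
  rw [(hasFDerivAt_CD p x.2).fderiv]
  simp only [_root_.smul_apply, smul_eq_mul, pr_apply, _root_.add_apply]

/-- Expansion of a linear function of the hyperboloid at the point `q`. -/
lemma nu_expand (x q : H3) (N : E3) : ∃ κ : E3, ∀ p : H3,
    nu p x N = CD p q * nu q x N + fderiv ℝ (CD p) q κ := by
  have hx := x.2
  have hq := q.2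
  refine ⟨!₂[(q : E3) 2 * (N 0 - ((x : E3) 0 - (q : E3) 0) * N 2 / (x : E3) 2),
    (q : E3) 2 * (N 1 - ((x : E3) 1 - (q : E3) 1) * N 2 / (x : E3) 2),
    ((x : E3) 0 - (q : E3) 0) * N 0 + ((x : E3) 1 - (q : E3) 1) * N 1 + (x : E3) 2 * N 2 -
      (((x : E3) 0 - (q : E3) 0) ^ 2 + ((x : E3) 1 - (q : E3) 1) ^ 2 + (x : E3) 2 ^ 2 -
        (q : E3) 2 ^ 2) * N 2 / (2 * (x : E3) 2)], fun p => ?_⟩
  have hp := p.2
  unfold nu
  rw [fderiv_CD_apply, fderiv_CD_apply, fderiv_CD_apply]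
  simp only [CD, Matrix.cons_val_zero, Matrix.cons_val_one, Matrix.cons_val]
  generalize (p : E3) 0 = a0 at *
  generalize (p : E3) 1 = a1 at *
  generalize (p : E3) 2 = a2 at *
  generalize (q : E3) 0 = c0 at *
  generalize (q : E3) 1 = c1 at *
  generalize (q : E3) 2 = c2 at *
  generalize (x : E3) 0 = b0 at *
  generalize (x : E3) 1 = b1 at *
  generalize (x : E3) 2 = b2 at *
  field_simp
  ring

lemma rt_nonneg (s : ℝ) (p x : H3) (M : E3) : 0 ≤ rt s p x M := by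
  unfold rt
  have := CD_pos p x
  positivity

lemma rt_le (s : ℝ) (p x : H3) {M : E3} (hM : ‖M‖ = 1) : rt s p x M ≤ bs s p x := by
  have h0 := CD_pos p x
  have h1 := nu_sq_le p x.2 hM
  have h2 : CD p x ^ (-s) = CD p x ^ (-s - 2) * CD p x ^ 2 := by
    rw [← Real.rpow_natCast, ← Real.rpow_add h0]
    congr 1
    norm_num
  unfold rt bs
  rw [h2]
  exact mul_le_mul_of_nonneg_left h1 (Real.rpow_nonneg h0.le _)

lemma summable_rt {s : ℝ} (hs : 0 ≤ s) (hsum : Summable fun γ : Γ => bs s (op γ) oo) (x : H3)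
    {M : E3} (hM : ‖M‖ = 1) : Summable fun γ : Γ => rt s (op γ) x M :=
  Summable.of_nonneg_of_le (fun γ => rt_nonneg _ _ _ _) (fun γ => rt_le _ _ _ hM)
    (summable_bs hs hsum x)

lemma RR_nonneg {s : ℝ} (hs : 0 ≤ s) (hsum : Summable fun γ : Γ => bs s (op γ) oo) (x : H3)
    (M : E3) : 0 ≤ RR Γ s x M :=
  div_nonneg (tsum_nonneg fun γ => rt_nonneg _ _ _ _) (Ps_pos hs hsum x).le

lemma Ps_harnack {s : ℝ} (hs : 0 ≤ s) (hsum : Summable fun γ : Γ => bs s (op γ) oo) (x q : H3) :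
    Ps Γ s x ≤ (2 * coshDist x q) ^ s * Ps Γ s q := by
  unfold Ps
  rw [← tsum_mul_left]
  exact (summable_bs hs hsum x).tsum_le_tsum (fun γ => bs_harnack hs (op γ) x q)
    ((summable_bs hs hsum q).mul_left _)

/-- One term. -/
lemma term_le {s ε : ℝ} (hs : 0 ≤ s) (hε : 0 < ε) (p x q : H3) (M : E3) :
    |CD p q ^ (-s - 1) * nu p x M| ≤
      ε / 2 * bs s p q + (2 * coshDist q x) ^ (s + 2) / (2 * ε) * rt s p x M := by
  have h0 := CD_pos p q
  have h1 := CD_pos p x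
  have hc := one_le_coshDist q x
  have e1 : CD p q ^ (-s) = CD p q ^ (-s - 2) * CD p q ^ 2 := by
    rw [← Real.rpow_natCast, ← Real.rpow_add h0]
    congr 1
    norm_num
  have e2 : CD p q ^ (-s - 1) = CD p q ^ (-s - 2) * CD p q := by
    nth_rw 3 [← Real.rpow_one (CD p q)]
    rw [← Real.rpow_add h0]
    congr 1
    ring
  have h2 : CD p q ^ (-s - 2) ≤ (2 * coshDist q x) ^ (s + 2) * CD p x ^ (-s - 2) := by
    have h := bs_harnack (s := s + 2) (by linarith) p q x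
    unfold bs at h
    have e : -(s + 2) = -s - 2 := by ring
    rwa [e] at h
  set a := CD p q ^ (-s - 2) with ha
  have ha0 : 0 ≤ a := Real.rpow_nonneg h0.le _
  set v := nu p x M with hv
  rw [abs_mul, abs_of_nonneg (Real.rpow_nonneg h0.le _), e2]
  unfold bs rt
  rw [e1]
  have h3 : CD p q * |v| ≤ ε / 2 * CD p q ^ 2 + 1 / (2 * ε) * v ^ 2 := by
    have h4 : 0 ≤ (ε * CD p q - |v|) ^ 2 := sq_nonneg _
    rw [← sq_abs v]
    have h5 : ε / 2 * CD p q ^ 2 + 1 / (2 * ε) * |v| ^ 2 - CD p q * |v| =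
        (ε * CD p q - |v|) ^ 2 / (2 * ε) := by field_simp; ring
    have h6 : 0 ≤ (ε * CD p q - |v|) ^ 2 / (2 * ε) := by positivity
    linarith
  calc a * CD p q * |v| = a * (CD p q * |v|) := by ring
    _ ≤ a * (ε / 2 * CD p q ^ 2 + 1 / (2 * ε) * v ^ 2) := mul_le_mul_of_nonneg_left h3 ha0
    _ = ε / 2 * (a * CD p q ^ 2) + 1 / (2 * ε) * (a * v ^ 2) := by ring
    _ ≤ ε / 2 * (a * CD p q ^ 2) + 1 / (2 * ε) *
        ((2 * coshDist q x) ^ (s + 2) * CD p x ^ (-s - 2) * (1 + v ^ 2)) := by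
        gcongr
        · exact le_add_of_nonneg_left zero_le_one
    _ = _ := by ring

lemma summable_T {s : ℝ} (hs : 0 < s) (hsum : Summable fun γ : Γ => bs s (op γ) oo) (x q : H3)
    {M : E3} (hM : ‖M‖ = 1) : Summable fun γ : Γ => |CD (op γ) q ^ (-s - 1) * nu (op γ) x M| :=
  Summable.of_nonneg_of_le (fun γ => abs_nonneg _)
    (fun γ => term_le hs.le one_pos (op γ) x q M)
    (((summable_bs hs.le hsum q).mul_left _).add ((summable_rt hs.le hsum x hM).mul_left _))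

lemma T_le {s ε : ℝ} (hs : 0 < s) (hs2 : s ≤ 2) (hε : 0 < ε)
    (hsum : Summable fun γ : Γ => bs s (op γ) oo) (x q : H3) {M : E3} (hM : ‖M‖ = 1) :
    |(∑' γ : Γ, CD (op γ) q ^ (-s - 1) * nu (op γ) x M) / Ps Γ s q| ≤
      ε / 2 + (2 * coshDist q x) ^ (6 : ℝ) / (2 * ε) * RR Γ s x M := by
  have hP := Ps_pos hs.le hsum q
  have hPx := Ps_pos hs.le hsum x
  have hc := one_le_coshDist q x
  have hR := RR_nonneg hs.le hsum x M
  rw [abs_div, abs_of_pos hP, div_le_iff₀ hP]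
  have h1 : |∑' γ : Γ, CD (op γ) q ^ (-s - 1) * nu (op γ) x M| ≤
      ∑' γ : Γ, |CD (op γ) q ^ (-s - 1) * nu (op γ) x M| := by
    have := norm_tsum_le_tsum_norm (f := fun γ : Γ => CD (op γ) q ^ (-s - 1) * nu (op γ) x M)
      (by simpa only [Real.norm_eq_abs] using summable_T hs hsum x q hM)
    simpa only [Real.norm_eq_abs] using this
  have h2 : ∑' γ : Γ, |CD (op γ) q ^ (-s - 1) * nu (op γ) x M| ≤
      ∑' γ : Γ, (ε / 2 * bs s (op γ) q +
        (2 * coshDist q x) ^ (s + 2) / (2 * ε) * rt s (op γ) x M) :=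
    (summable_T hs hsum x q hM).tsum_le_tsum (fun γ => term_le hs.le hε (op γ) x q M)
      (((summable_bs hs.le hsum q).mul_left _).add ((summable_rt hs.le hsum x hM).mul_left _))
  rw [((summable_bs hs.le hsum q).mul_left _).tsum_add ((summable_rt hs.le hsum x hM).mul_left _),
    tsum_mul_left, tsum_mul_left] at h2
  have h3 : ∑' γ : Γ, rt s (op γ) x M = RR Γ s x M * Ps Γ s x := by
    unfold RR
    field_simp
  have h4 : Ps Γ s x ≤ (2 * coshDist q x) ^ s * Ps Γ s q := by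
    rw [coshDist_comm q x]
    exact Ps_harnack hs.le hsum x q
  have h5 : (2 * coshDist q x) ^ (s + 2) * (2 * coshDist q x) ^ s ≤
      (2 * coshDist q x) ^ (6 : ℝ) := by
    rw [← Real.rpow_add (by linarith)]
    exact Real.rpow_le_rpow_of_exponent_le (by linarith) (by linarith)
  calc |∑' γ : Γ, CD (op γ) q ^ (-s - 1) * nu (op γ) x M|
      ≤ ε / 2 * Ps Γ s q + (2 * coshDist q x) ^ (s + 2) / (2 * ε) * (RR Γ s x M * Ps Γ s x) := by
        rw [← h3]; exact h1.trans h2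
    _ ≤ ε / 2 * Ps Γ s q + (2 * coshDist q x) ^ (s + 2) / (2 * ε) *
        (RR Γ s x M * ((2 * coshDist q x) ^ s * Ps Γ s q)) := by gcongr
    _ = ε / 2 * Ps Γ s q + ((2 * coshDist q x) ^ (s + 2) * (2 * coshDist q x) ^ s) *
        (RR Γ s x M * Ps Γ s q / (2 * ε)) := by ring
    _ ≤ ε / 2 * Ps Γ s q + (2 * coshDist q x) ^ (6 : ℝ) *
        (RR Γ s x M * Ps Γ s q / (2 * ε)) := by gcongr
    _ = _ := by ring

lemma tendsto_zero_of_bound {T R : ℕ → ℝ} {B : ℝ}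
    (h : ∀ k, ∀ ε : ℝ, 0 < ε → |T k| ≤ ε / 2 + B / (2 * ε) * R k)
    (hR : Tendsto R atTop (𝓝 0)) : Tendsto T atTop (𝓝 0) := by
  rw [Metric.tendsto_atTop]
  intro ε hε
  have h1 : Tendsto (fun k => ε / 2 + B / (2 * ε) * R k) atTop (𝓝 (ε / 2 + B / (2 * ε) * 0)) :=
    tendsto_const_nhds.add (hR.const_mul _)
  rw [mul_zero, add_zero] at h1
  have h2 := h1.eventually (gt_mem_nhds (half_lt_self hε))
  obtain ⟨K, hK⟩ := eventually_atTop.1 h2
  refine ⟨K, fun k hk => ?_⟩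
  rw [Real.dist_eq, sub_zero]
  exact (h k ε hε).trans_lt (hK k hk)

lemma tendsto_T {sk : ℕ → ℝ} (hs : ∀ k, 1 < sk k ∧ sk k ≤ 2)
    (hsum : ∀ k, Summable fun γ : Γ => bs (sk k) (op γ) oo) (x q : H3) {M : E3}
    (hM : ‖M‖ = 1) (h1 : Tendsto (fun k => RR Γ (sk k) x M) atTop (𝓝 0)) :
    Tendsto (fun k => (∑' γ : Γ, CD (op γ) q ^ (-(sk k) - 1) * nu (op γ) x M) /
      Ps Γ (sk k) q) atTop (𝓝 0) :=
  tendsto_zero_of_bound (fun k ε hε => T_le (one_pos.trans (hs k).1) (hs k).2 hε (hsum k) x q hM) h1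

/-- The sum in terms of the derivative of the Poincare series. -/
lemma T_eq {s : ℝ} (hs : 0 < s) (hsum : Summable fun γ : Γ => bs s (op γ) oo) (x q : H3)
    {M κ : E3} {c : ℝ} (h : ∀ p : H3, nu p x M = CD p q * c + fderiv ℝ (CD p) q κ) :
    ∑' γ : Γ, CD (op γ) q ^ (-s - 1) * nu (op γ) x M =
      c * Ps Γ s q - s⁻¹ * fderiv ℝ (Ps Γ s) q κ := by
  have h1 : ∀ γ : Γ, CD (op γ) q ^ (-s - 1) * nu (op γ) x M =
      c * bs s (op γ) q - s⁻¹ * (fderiv ℝ (bs s (op γ)) q κ) := by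
    intro γ
    have h0 := CD_pos (op γ) q
    have e1 : CD (op γ) q ^ (-s) = CD (op γ) q ^ (-s - 1) * CD (op γ) q := by
      nth_rw 3 [← Real.rpow_one (CD (op γ) q)]
      rw [← Real.rpow_add h0]
      congr 1
      ring
    rw [h, (hasFDerivAt_bs s (op γ) q.2).fderiv, bs, e1]
    simp only [_root_.smul_apply, smul_eq_mul]
    field_simp
    ring
  have h2 : Summable fun γ : Γ => fderiv ℝ (bs s (op γ)) (q : E3) :=
    (summable_norm_fderiv_bs hs.le hsum q).of_norm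
  have h3 : Summable fun γ : Γ => fderiv ℝ (bs s (op γ)) (q : E3) κ :=
    h2.mapL (ContinuousLinearMap.apply ℝ ℝ κ)
  have h4 : fderiv ℝ (Ps Γ s) q κ = ∑' γ : Γ, fderiv ℝ (bs s (op γ)) (q : E3) κ := by
    rw [(hasFDerivAt_Ps hs.le hsum q).fderiv]
    exact (ContinuousLinearMap.apply ℝ ℝ κ).map_tsum h2
  rw [tsum_congr h1, ((summable_bs hs.le hsum q).mul_left c).tsum_sub (h3.mul_left _),
    tsum_mul_left, tsum_mul_left, ← h4]
  rfl

theorem endgame {sk : ℕ → ℝ} (hs : ∀ k, 1 < sk k ∧ sk k ≤ 2)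
    (hsum : ∀ k, Summable fun γ : Γ => bs (sk k) (op γ) oo) (x q : H3) {M N : E3}
    (hM : ‖M‖ = 1) (hN : ‖N‖ = 1)
    (h1 : Tendsto (fun k => RR Γ (sk k) x M) atTop (𝓝 0))
    (h2 : Tendsto (fun k => RR Γ (sk k) q N) atTop (𝓝 0))
    (h3 : Tendsto (fun k => GT Γ (sk k) q N) atTop (𝓝 0)) :
    nu q x M = 0 := by
  have hq := q.2
  have hpos : ∀ k, 0 < sk k := fun k => one_pos.trans (hs k).1
  have hP : ∀ k, 0 < Ps Γ (sk k) q := fun k => Ps_pos (hpos k).le (hsum k) q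
  -- the derivative in the direction `N`
  have a1 := tendsto_T hs hsum q q hN h2
  have a2 : Tendsto (fun k => (q : E3) 2 * fderiv ℝ (Ps Γ (sk k)) q N / Ps Γ (sk k) q)
      atTop (𝓝 0) := by
    have b1 : ∀ k, (q : E3) 2 * fderiv ℝ (Ps Γ (sk k)) q N / Ps Γ (sk k) q =
        -(sk k) * ((∑' γ : Γ, CD (op γ) q ^ (-(sk k) - 1) * nu (op γ) q N) /
          Ps Γ (sk k) q) := by
      intro k
      rw [T_eq (hpos k) (hsum k) q q (κ := (q : E3) 2 • N) (c := 0) (fun p => by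
        rw [mul_zero, zero_add, map_smul, smul_eq_mul]; rfl)]
      have := hP k
      have := (hpos k).ne'
      rw [map_smul, smul_eq_mul]
      field_simp
      ring
    rw [tendsto_zero_iff_abs_tendsto_zero]
    have b2 : Tendsto (fun k => 2 * |(∑' γ : Γ, CD (op γ) q ^ (-(sk k) - 1) * nu (op γ) q N) /
          Ps Γ (sk k) q|) atTop (𝓝 0) := by
      have := (tendsto_zero_iff_abs_tendsto_zero _).1 a1
      simpa using this.const_mul 2
    refine squeeze_zero (fun k => abs_nonneg _) (fun k => ?_) b2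
    simp only [Function.comp]
    rw [b1, abs_mul, abs_neg, abs_of_pos (hpos k)]
    gcongr
    exact (hs k).2
  -- the whole gradient
  have a3 : Tendsto (fun k => (q : E3) 2 ^ 2 * ‖∇ (Ps Γ (sk k)) q‖ ^ 2 / Ps Γ (sk k) q ^ 2)
      atTop (𝓝 0) := by
    have b1 := h3.add (a2.pow 2)
    rw [zero_pow two_ne_zero, add_zero] at b1
    refine b1.congr fun k => ?_
    unfold GT
    rw [inner_gradient_left]
    have := (hP k).ne'
    field_simp
    ring
  obtain ⟨κ, hκ⟩ := nu_expand x q M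
  have a4 : Tendsto (fun k => fderiv ℝ (Ps Γ (sk k)) q κ / Ps Γ (sk k) q) atTop (𝓝 0) := by
    have b1 := a3.const_mul (‖κ‖ ^ 2 / (q : E3) 2 ^ 2)
    rw [mul_zero] at b1
    have b2 : Tendsto (fun k => (fderiv ℝ (Ps Γ (sk k)) q κ / Ps Γ (sk k) q) ^ 2) atTop (𝓝 0) := by
      refine squeeze_zero (fun k => sq_nonneg _) (fun k => ?_) b1
      have := hP k
      rw [← inner_gradient_left, div_pow]
      have c1 : ⟪∇ (Ps Γ (sk k)) q, κ⟫ ^ 2 ≤ (‖∇ (Ps Γ (sk k)) q‖ * ‖κ‖) ^ 2 := by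
        rw [← sq_abs]
        gcongr
        exact abs_real_inner_le_norm _ _
      calc ⟪∇ (Ps Γ (sk k)) q, κ⟫ ^ 2 / Ps Γ (sk k) q ^ 2
          ≤ (‖∇ (Ps Γ (sk k)) q‖ * ‖κ‖) ^ 2 / Ps Γ (sk k) q ^ 2 := by gcongr
        _ = _ := by field_simp
    rw [tendsto_zero_iff_abs_tendsto_zero]
    have b3 := (Real.continuous_sqrt.tendsto 0).comp b2
    rw [Real.sqrt_zero] at b3
    refine b3.congr fun k => ?_
    simp only [Function.comp]
    rw [Real.sqrt_sq_eq_abs]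
  have a5 := tendsto_T hs hsum x q hM h1
  have a6 : Tendsto (fun k => (sk k)⁻¹ * (fderiv ℝ (Ps Γ (sk k)) q κ / Ps Γ (sk k) q))
      atTop (𝓝 0) := by
    rw [tendsto_zero_iff_abs_tendsto_zero]
    refine squeeze_zero (fun k => abs_nonneg _) (fun k => ?_)
      ((tendsto_zero_iff_abs_tendsto_zero _).1 a4)
    simp only [Function.comp]
    rw [abs_mul, abs_of_pos (inv_pos.2 (hpos k))]
    exact mul_le_of_le_one_left (abs_nonneg _) (inv_le_one_of_one_le₀ (hs k).1.le)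
  have a7 : ∀ k, nu q x M = (∑' γ : Γ, CD (op γ) q ^ (-(sk k) - 1) * nu (op γ) x M) /
      Ps Γ (sk k) q + (sk k)⁻¹ * (fderiv ℝ (Ps Γ (sk k)) q κ / Ps Γ (sk k) q) := by
    intro k
    rw [T_eq (hpos k) (hsum k) x q hκ]
    have := (hP k).ne'
    field_simp
    ring
  have a8 := a5.add a6
  rw [add_zero] at a8
  have a9 : Tendsto (fun _ : ℕ => nu q x M) atTop (𝓝 0) := a8.congr fun k => (a7 k).symm
  exact tendsto_nhds_unique tendsto_const_nhds a9

end Pool.Agent.Helper45.MS
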