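import Mathlib
import Pool.Agent.Helper45.MS.Ker
import Pool.Agent.Helper45.MS.FV

/-!
# The first variation formula for one kernel divided by the Poincare series

PROOF. Copy of `truncated_le` and `limit_le` in Helper82/FiniteArea.lean with other fields. Take
`X_k y = zeta_k y • ZC oo y`, `zeta_k y = if 0 < y 2 then st (k * bt oo y) * th y else 0` with
`th y = - s * CD oo y ^ (-s - 1) / Ps Γ s y` (C^1 on UH by Ker; cutoff `st`, `KK k`, `contDiff_of_support` from
Helper82/Cutoff.lean). `hS.first_variation` gives `∫ FV = 0`; by `FV_ZC`, `fderiv_CD_tang`: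
`FV / wt = st(k b) * (s (s-1) bs/Ps - s (s+1) rt/Ps + cross) + th * fderiv (st (k b)) (tang N Z)`
(`2 zeta C = -2 s bs/Ps st`, `fderiv th (Z^T) = s (s+1) C^(-s-2) (C^2 - 1 - nu^2)/Ps + cross`). All terms are bounded by
a constant times `bs s oo q / Ps Γ s q` (`abs_cross_le`, `nu_sq_le`; the cutoff term by `3 M s bs/Ps`, see
`abs_fderiv_zk_le`), which is integrable by `hfin`; let `k → ∞` (dominated convergence). Measurability on
`S`: `hS.continuousOn_quad` with `T = (fderiv f q).smulRight V` as in `continuousOn_fderiv_YT`.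
-/

open MeasureTheory MeasureTheory.Measure Module Set Filter Topology
open scoped ENNReal NNReal Gradient RealInnerProductSpace ContDiff

namespace Pool.Agent.Helper45.MS

open Pool.Agent.Helper82

variable {Γ : Subgroup (Equiv.Perm H3)} {S : Set H3} {s : ℝ}

/-- The cross term. -/
noncomputable def cross (Γ : Subgroup (Equiv.Perm H3)) (s : ℝ) (p : H3) (q N : E3) : ℝ :=
  s * CD p q ^ (-s - 1) * fderiv ℝ (Ps Γ s) q (tang N (ZC p q)) / Ps Γ s q ^ 2

lemma rpow_step1 (p q : H3) (s : ℝ) : CD p q ^ (-s) = CD p q ^ (-s - 1) * CD p q := by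
  rw [← Real.rpow_add_one (CD_pos p q).ne']
  congr 1
  ring

lemma rpow_step2 (p q : H3) (s : ℝ) : CD p q ^ (-s - 1) = CD p q ^ (-s - 2) * CD p q := by
  rw [← Real.rpow_add_one (CD_pos p q).ne']
  congr 1
  ring

lemma abs_cross_le (hs : 0 ≤ s) (hsum : Summable fun γ : Γ => bs s (op γ) oo) (p q : H3) {N : E3}
    (hN : ‖N‖ = 1) : |cross Γ s p q N| ≤ s ^ 2 * (bs s p q / Ps Γ s q) := by
  have hP := Ps_pos hs hsum q
  have hC := CD_pos p q
  have hq := q.2
  have hCa : 0 < CD p q ^ (-s - 1) := Real.rpow_pos_of_pos hC _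
  have h1 : |fderiv ℝ (Ps Γ s) q (tang N (ZC p q))| ≤ s * Ps Γ s q * CD p q := by
    calc |fderiv ℝ (Ps Γ s) q (tang N (ZC p q))|
        ≤ ‖fderiv ℝ (Ps Γ s) q‖ * ‖tang N (ZC p q)‖ := (fderiv ℝ (Ps Γ s) (q : E3)).le_opNorm _
      _ ≤ ‖fderiv ℝ (Ps Γ s) q‖ * ((q : E3) 2 * CD p q) := by
          gcongr
          exact norm_tang_ZC_le p hq hN
      _ = ‖fderiv ℝ (Ps Γ s) q‖ * (q : E3) 2 * CD p q := by ring
      _ ≤ s * Ps Γ s q * CD p q :=
          mul_le_mul_of_nonneg_right (norm_fderiv_Ps_le hs hsum q) hC.le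
  have h2 : cross Γ s p q N = s * CD p q ^ (-s - 1) / Ps Γ s q ^ 2 *
      fderiv ℝ (Ps Γ s) q (tang N (ZC p q)) := by
    unfold cross
    ring
  rw [h2, abs_mul, abs_of_nonneg (by positivity : 0 ≤ s * CD p q ^ (-s - 1) / Ps Γ s q ^ 2)]
  calc s * CD p q ^ (-s - 1) / Ps Γ s q ^ 2 * |fderiv ℝ (Ps Γ s) q (tang N (ZC p q))|
      ≤ s * CD p q ^ (-s - 1) / Ps Γ s q ^ 2 * (s * Ps Γ s q * CD p q) := by gcongr
    _ = s ^ 2 * (bs s p q / Ps Γ s q) := by
        have h3 : bs s p q = CD p q ^ (-s - 1) * CD p q := rpow_step1 p q s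
        rw [h3]
        field_simp

/-! ### Continuity on the surface -/

lemma continuousOn_fderiv_tang (hS : IsMinimalIn wt UH (Subtype.val '' S)) {f : E3 → ℝ}
    (hf : ContDiffOn ℝ 1 f UH) {V : E3 → E3} (hV : ContinuousOn V UH) :
    ContinuousOn (fun q => fderiv ℝ f q (tang (hS.normal q) (V q))) (Subtype.val '' S) := by
  have hdf : ContinuousOn (fderiv ℝ f) UH := hf.continuousOn_fderiv_of_isOpen isOpen_UH (by norm_num)
  have h1 : ContinuousOn (fun q => fderiv ℝ f q (V q)) (Subtype.val '' S) :=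
    (hdf.clm_apply hV).mono hS.subset
  have hT : ContinuousOn (fun q => (fderiv ℝ f q).smulRight (V q)) UH := by
    have := (ContinuousLinearMap.smulRightL ℝ E3 E3).continuous₂
    exact this.comp_continuousOn (hdf.prodMk hV)
  have h2 := hS.continuousOn_quad hT
  refine (h1.sub h2).congr fun q hq => ?_
  simp only [tang, map_sub, map_smul, ContinuousLinearMap.smulRight_apply, inner_smul_left,
    smul_eq_mul, conj_trivial, Pi.sub_apply]
  ring

lemma continuousOn_nu_sq (hS : IsMinimalIn wt UH (Subtype.val '' S)) (p : H3) :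
    ContinuousOn (fun q => nu p q (hS.normal q) ^ 2) (Subtype.val '' S) := by
  have hf : ContDiffOn ℝ 1 (CD p) UH := (contDiffOn_CD p).of_le (by simp)
  have hdf : ContinuousOn (fderiv ℝ (CD p)) UH :=
    hf.continuousOn_fderiv_of_isOpen isOpen_UH (by norm_num)
  have hV : ContinuousOn (fun q => ∇ (CD p) q) UH :=
    (InnerProductSpace.toDual ℝ E3).symm.continuous.comp_continuousOn hdf
  have hT : ContinuousOn (fun q => (fderiv ℝ (CD p) q).smulRight (∇ (CD p) q)) UH := by
    have := (ContinuousLinearMap.smulRightL ℝ E3 E3).continuous₂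
    exact this.comp_continuousOn (hdf.prodMk hV)
  have h2 := hS.continuousOn_quad hT
  have h3 : ContinuousOn (fun q : E3 => q 2 ^ 2) (Subtype.val '' S) := by fun_prop
  refine (h3.mul h2).congr fun q hq => ?_
  simp only [nu, ContinuousLinearMap.smulRight_apply, inner_smul_left, conj_trivial,
    Pi.mul_apply, inner_gradient_left]
  ring

/-! ### The coefficient -/

/-- The coefficient of the field. -/
noncomputable def th (Γ : Subgroup (Equiv.Perm H3)) (s : ℝ) (y : E3) : ℝ :=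
  -(s * CD oo y ^ (-s - 1)) * (Ps Γ s y)⁻¹

lemma contDiffOn_th (hs : 0 ≤ s) (hsum : Summable fun γ : Γ => bs s (op γ) oo) :
    ContDiffOn ℝ 1 (th Γ s) UH := by
  have h1 : ContDiffOn ℝ 1 (fun y => CD oo y ^ (-s - 1)) UH :=
    ((contDiffOn_CD oo).of_le (by simp)).rpow_const_of_ne fun q hq => (CD_pos oo ⟨q, hq⟩).ne'
  have h2 : ContDiffOn ℝ 1 (fun y => (Ps Γ s y)⁻¹) UH :=
    (contDiffOn_Ps hs hsum).inv fun q hq => (Ps_pos hs hsum ⟨q, hq⟩).ne'
  exact ((contDiffOn_const.mul h1).neg).mul h2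

lemma hasFDerivAt_th (hs : 0 ≤ s) (hsum : Summable fun γ : Γ => bs s (op γ) oo) (q : H3) :
    HasFDerivAt (th Γ s) (fderiv ℝ (th Γ s) q) q :=
  (((contDiffOn_th hs hsum).contDiffAt (isOpen_UH.mem_nhds q.2)).differentiableAt
    (by norm_num)).hasFDerivAt

lemma fderiv_th (hs : 0 ≤ s) (hsum : Summable fun γ : Γ => bs s (op γ) oo) (q : H3) (v : E3) :
    fderiv ℝ (th Γ s) q v =
      s * (s + 1) * (CD oo q ^ (-s - 2) * fderiv ℝ (CD oo) q v) / Ps Γ s q +
        s * CD oo q ^ (-s - 1) * fderiv ℝ (Ps Γ s) q v / Ps Γ s q ^ 2 := by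
  have hP := (Ps_pos hs hsum q).ne'
  have hC := (CD_pos oo q).ne'
  have h1 : HasFDerivAt (CD oo) (fderiv ℝ (CD oo) q) q :=
    (hasFDerivAt_CD oo q.2).differentiableAt.hasFDerivAt
  have h2 : HasFDerivAt (Ps Γ s) (fderiv ℝ (Ps Γ s) q) q :=
    (hasFDerivAt_Ps hs hsum q).differentiableAt.hasFDerivAt
  have h3 : HasFDerivAt (fun y => CD oo y ^ (-s - 1))
      (((-s - 1) * CD oo q ^ (-s - 1 - 1)) • fderiv ℝ (CD oo) q) q :=
    h1.rpow_const (Or.inl hC)
  have h4 : HasFDerivAt (fun y => (Ps Γ s y)⁻¹) ((-(Ps Γ s q ^ 2)⁻¹) • fderiv ℝ (Ps Γ s) q) q :=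
    (hasDerivAt_inv hP).comp_hasFDerivAt (q : E3) h2
  have h5 : HasFDerivAt (fun y => -(s * CD oo y ^ (-s - 1)) * (Ps Γ s y)⁻¹) _ (q : E3) :=
    ((h3.const_mul s).neg).mul h4
  have h6 : HasFDerivAt (th Γ s) _ (q : E3) := h5
  rw [h6.fderiv]
  have e : -s - 1 - 1 = -s - 2 := by ring
  rw [e]
  simp only [_root_.smul_apply, smul_eq_mul, _root_.add_apply, _root_.neg_apply, Pi.neg_apply]
  field_simp
  ring

/-- The truncated coefficient. -/
noncomputable def zt (Γ : Subgroup (Equiv.Perm H3)) (s : ℝ) (k : ℕ) (q : E3) : ℝ :=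
  open Classical in if 0 < q 2 then st (k * bt oo q) * th Γ s q else 0

lemma zt_eq (k : ℕ) {q : E3} (hq : 0 < q 2) : zt Γ s k q = st (k * bt oo q) * th Γ s q := by
  simp only [zt, if_pos hq]

lemma zt_zero {k : ℕ} {q : E3} (hq : q ∉ KK k) : zt Γ s k q = 0 := by
  by_cases h : 0 < q 2
  · rw [zt_eq k h]
    have h1 : CD oo q = (‖q‖ ^ 2 + 1) / (2 * q 2) := CD_oo q
    have h2 : (k : ℝ) < CD oo q := by
      rw [h1, lt_div_iff₀ (by positivity)]
      have : ¬ (‖q‖ ^ 2 + 1 ≤ 2 * k * q 2) := hq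
      linarith
    have h3 : 1 ≤ CD oo q := one_le_CD oo ⟨q, h⟩
    have h4 : (k : ℝ) * bt oo q ≤ 1 := by
      rw [bt, ← div_eq_mul_inv, div_le_one (by positivity)]
      calc (k : ℝ) ≤ CD oo q := h2.le
        _ ≤ CD oo q ^ 3 := le_self_pow₀ h3 (by norm_num)
    rw [st_zero h4, zero_mul]
  · simp only [zt, if_neg h]

lemma contDiffOn_zt (hs : 0 ≤ s) (hsum : Summable fun γ : Γ => bs s (op γ) oo) (k : ℕ) :
    ContDiffOn ℝ 1 (zt Γ s k) UH := by
  have h1 : ContDiffOn ℝ 1 (fun q => st (k * bt oo q) * th Γ s q) UH := by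
    refine ContDiffOn.mul ?_ (contDiffOn_th hs hsum)
    exact contDiff_st.comp_contDiffOn (contDiffOn_const.mul ((contDiffOn_bt oo).of_le (by simp)))
  exact h1.congr fun q hq => zt_eq k hq

lemma contDiff_ztZC (hs : 0 ≤ s) (hsum : Summable fun γ : Γ => bs s (op γ) oo) (k : ℕ) :
    ContDiff ℝ 1 (fun y => zt Γ s k y • ZC oo y) :=
  contDiff_of_support ((contDiffOn_zt hs hsum k).smul (contDiffOn_ZC oo)) (isClosed_KK k)
    (KK_subset (Nat.cast_nonneg k)) fun _ hq => by rw [zt_zero hq, zero_smul]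

lemma tsupport_ztZC (k : ℕ) : tsupport (fun y => zt Γ s k y • ZC oo y) ⊆ KK k := by
  refine closure_minimal ?_ (isClosed_KK k)
  intro q hq
  by_contra h
  exact hq (by simp only [zt_zero h, zero_smul])

lemma hasCompactSupport_ztZC (k : ℕ) : HasCompactSupport (fun y => zt Γ s k y • ZC oo y) :=
  (isCompact_KK (Nat.cast_nonneg k)).of_isClosed_subset (isClosed_tsupport _) (tsupport_ztZC k)

/-- Eventually the truncation is trivial near a point. -/
lemma zt_eventuallyEq (q : H3) : ∀ᶠ k : ℕ in atTop, zt Γ s k =ᶠ[𝓝 (q : E3)] th Γ s := by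
  have hb := bt_pos oo q
  obtain ⟨k0, hk0⟩ := exists_nat_gt (2 / bt oo q)
  filter_upwards [eventually_ge_atTop k0] with k hk
  have h1 : 2 < k * bt oo q := by
    rw [← div_lt_iff₀ hb]
    exact hk0.trans_le (by exact_mod_cast hk)
  have hcont : ContinuousAt (fun y => (k : ℝ) * bt oo y) q :=
    continuousAt_const.mul (hasFDerivAt_bt oo q.2).continuousAt
  filter_upwards [hcont.eventually (Ioi_mem_nhds h1), isOpen_UH.mem_nhds q.2] with y hy hyU
  have hy' : 2 < (k : ℝ) * bt oo y := hy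
  rw [zt_eq k hyU, st_one hy'.le, one_mul]

lemma fderiv_zt (hs : 0 ≤ s) (hsum : Summable fun γ : Γ => bs s (op γ) oo) (k : ℕ) (q : H3)
    (v : E3) : fderiv ℝ (zt Γ s k) q v = st (k * bt oo q) * fderiv ℝ (th Γ s) q v +
      th Γ s q * (deriv st (k * bt oo q) * (k * fderiv ℝ (bt oo) q v)) := by
  have hq := q.2
  have h1 : HasFDerivAt (bt oo) (fderiv ℝ (bt oo) q) q :=
    (hasFDerivAt_bt oo hq).differentiableAt.hasFDerivAt
  have h2 := hasFDerivAt_th hs hsum q
  have h3 : HasDerivAt st (deriv st (k * bt oo q)) (k * bt oo q) :=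
    (contDiff_st.differentiable (by norm_num) _).hasDerivAt
  have h4 := HasDerivAt.comp_hasFDerivAt (q : E3) (f := fun y => (k : ℝ) * bt oo y) h3
    (h1.const_mul (k : ℝ))
  have h5 : HasFDerivAt (fun y => st (k * bt oo y) * th Γ s y) _ (q : E3) := h4.mul h2
  have h6 : zt Γ s k =ᶠ[𝓝 (q : E3)] fun y => st (k * bt oo y) * th Γ s y := by
    filter_upwards [isOpen_UH.mem_nhds hq] with y hy
    exact zt_eq k hy
  rw [h6.fderiv_eq, h5.fderiv]
  simp only [_root_.smul_apply, smul_eq_mul, _root_.add_apply, Function.comp_apply]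

/-! ### Bounds -/

lemma abs_th (hs : 0 ≤ s) (hsum : Summable fun γ : Γ => bs s (op γ) oo) (q : H3) :
    |th Γ s q| * CD oo q = s * (bs s oo q / Ps Γ s q) := by
  have hP := Ps_pos hs hsum q
  have hC := CD_pos oo q
  have hCa : 0 < CD oo q ^ (-s - 1) := Real.rpow_pos_of_pos hC _
  have h3 : bs s oo q = CD oo q ^ (-s - 1) * CD oo q := rpow_step1 oo q s
  have h4 : th Γ s q = -(s * CD oo q ^ (-s - 1) * (Ps Γ s q)⁻¹) := by unfold th; ring
  rw [h4, abs_neg, abs_of_nonneg (by positivity), h3]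
  field_simp

lemma abs_fderiv_th_le (hs : 0 ≤ s) (hsum : Summable fun γ : Γ => bs s (op γ) oo) (q : H3)
    {N : E3} (hN : ‖N‖ = 1) : |fderiv ℝ (th Γ s) q (tang N (ZC oo q))| ≤
      (s * (s + 1) + s ^ 2) * (bs s oo q / Ps Γ s q) := by
  have hP := Ps_pos hs hsum q
  have hC := CD_pos oo q
  have hCb : 0 < CD oo q ^ (-s - 2) := Real.rpow_pos_of_pos hC _
  rw [fderiv_th hs hsum, fderiv_CD_tang oo q.2 hN]
  have h1 := abs_cross_le hs hsum oo q hN
  rw [cross] at h1
  have h2 : |s * (s + 1) * (CD oo q ^ (-s - 2) * (CD oo q ^ 2 - 1 - nu oo q N ^ 2)) / Ps Γ s q| ≤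
      s * (s + 1) * (bs s oo q / Ps Γ s q) := by
    have h3 := nu_sq_le oo q.2 hN
    have h4 : 0 ≤ CD oo q ^ 2 - 1 - nu oo q N ^ 2 := by linarith
    have h5 : CD oo q ^ 2 - 1 - nu oo q N ^ 2 ≤ CD oo q ^ 2 := by
      have := sq_nonneg (nu oo q N)
      linarith
    rw [abs_of_nonneg (by positivity)]
    have h6 : bs s oo q = CD oo q ^ (-s - 2) * CD oo q ^ 2 := by
      have : bs s oo q = CD oo q ^ (-s) := rfl
      rw [this, rpow_step1, rpow_step2]
      ring
    rw [h6, mul_div_assoc]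
    gcongr
  calc _ ≤ _ := abs_add_le _ _
    _ ≤ s * (s + 1) * (bs s oo q / Ps Γ s q) + s ^ 2 * (bs s oo q / Ps Γ s q) := add_le_add h2 h1
    _ = _ := by ring

lemma abs_integrand_le (hs : 0 ≤ s) (hsum : Summable fun γ : Γ => bs s (op γ) oo) {M : ℝ}
    (hM : ∀ x, |x * deriv st x| ≤ M) (k : ℕ) (q : H3) {N : E3} (hN : ‖N‖ = 1) :
    |2 * zt Γ s k q * CD oo q + fderiv ℝ (zt Γ s k) q (tang N (ZC oo q))| ≤
      (2 * s + (s * (s + 1) + s ^ 2) + 3 * M * s) * (bs s oo q / Ps Γ s q) := by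
  have hP := Ps_pos hs hsum q
  have hC := CD_pos oo q
  have hq := q.2
  have hb := bs_pos s oo q
  have hbt := bt_pos oo q
  have hst0 := st_nonneg (k * bt oo q)
  have hst1 := st_le_one (k * bt oo q)
  have hth := abs_th hs hsum q
  have hf : 0 ≤ bs s oo q / Ps Γ s q := by positivity
  have h1 : |2 * zt Γ s k q * CD oo q| ≤ 2 * s * (bs s oo q / Ps Γ s q) := by
    rw [zt_eq k hq, abs_mul, abs_mul, abs_mul, abs_of_pos hC, abs_of_nonneg hst0, abs_two]
    calc 2 * (st (k * bt oo q) * |th Γ s q|) * CD oo q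
        = 2 * st (k * bt oo q) * (|th Γ s q| * CD oo q) := by ring
      _ ≤ 2 * 1 * (|th Γ s q| * CD oo q) := by gcongr
      _ = _ := by rw [hth]; ring
  have h2 : |st (k * bt oo q) * fderiv ℝ (th Γ s) q (tang N (ZC oo q))| ≤
      (s * (s + 1) + s ^ 2) * (bs s oo q / Ps Γ s q) := by
    rw [abs_mul, abs_of_nonneg hst0]
    calc st (k * bt oo q) * |fderiv ℝ (th Γ s) q (tang N (ZC oo q))|
        ≤ 1 * |fderiv ℝ (th Γ s) q (tang N (ZC oo q))| := by gcongr
      _ ≤ _ := by rw [one_mul]; exact abs_fderiv_th_le hs hsum q hN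
  have h8 : |fderiv ℝ (bt oo) q (tang N (ZC oo q))| ≤ 3 * bt oo q * CD oo q := by
    calc |fderiv ℝ (bt oo) q (tang N (ZC oo q))|
        ≤ ‖fderiv ℝ (bt oo) q‖ * ‖tang N (ZC oo q)‖ := (fderiv ℝ (bt oo) (q : E3)).le_opNorm _
      _ ≤ ‖fderiv ℝ (bt oo) q‖ * ((q : E3) 2 * CD oo q) := by
          gcongr
          exact norm_tang_ZC_le oo hq hN
      _ = ‖fderiv ℝ (bt oo) q‖ * (q : E3) 2 * CD oo q := by ring
      _ ≤ _ := mul_le_mul_of_nonneg_right (norm_fderiv_bt_le oo hq) hC.le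
  have h10 : |th Γ s q * (deriv st (k * bt oo q) *
      (k * fderiv ℝ (bt oo) q (tang N (ZC oo q))))| ≤ 3 * M * s * (bs s oo q / Ps Γ s q) := by
    rw [abs_mul, abs_mul, abs_mul, Nat.abs_cast]
    have h11 : |deriv st (k * bt oo q)| * (k * |fderiv ℝ (bt oo) q (tang N (ZC oo q))|) ≤
        3 * M * CD oo q := by
      calc |deriv st (k * bt oo q)| * (k * |fderiv ℝ (bt oo) q (tang N (ZC oo q))|)
          ≤ |deriv st (k * bt oo q)| * (k * (3 * bt oo q * CD oo q)) := by gcongr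
        _ = 3 * |k * bt oo q * deriv st (k * bt oo q)| * CD oo q := by
            rw [abs_mul (k * bt oo q), abs_of_nonneg (by positivity : 0 ≤ (k:ℝ) * bt oo q)]; ring
        _ ≤ 3 * M * CD oo q := by gcongr; exact hM _
    calc |th Γ s q| * (|deriv st (k * bt oo q)| *
          (k * |fderiv ℝ (bt oo) q (tang N (ZC oo q))|))
        ≤ |th Γ s q| * (3 * M * CD oo q) := by gcongr
      _ = 3 * M * (|th Γ s q| * CD oo q) := by ring
      _ = _ := by rw [hth]; ring
  rw [fderiv_zt hs hsum]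
  calc _ ≤ _ := abs_add_le _ _
    _ ≤ 2 * s * (bs s oo q / Ps Γ s q) + ((s * (s + 1) + s ^ 2) * (bs s oo q / Ps Γ s q) +
        3 * M * s * (bs s oo q / Ps Γ s q)) :=
      add_le_add h1 ((abs_add_le _ _).trans (add_le_add h2 h10))
    _ = _ := by ring

/-- The truncated first variation formula. -/
lemma truncated_eq (hS : IsMinimalIn wt UH (Subtype.val '' S)) (hs : 0 ≤ s)
    (hsum : Summable fun γ : Γ => bs s (op γ) oo) (k : ℕ) :
    IntegrableOn (fun q : H3 => 2 * zt Γ s k q * CD oo q +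
      fderiv ℝ (zt Γ s k) q (tang (hS.normal q) (ZC oo q))) S harea ∧
    ∫ q in S, (2 * zt Γ s k q * CD oo q +
      fderiv ℝ (zt Γ s k) q (tang (hS.normal q) (ZC oo q))) ∂harea = 0 := by
  have hSm := measurableSet_of_minimal hS
  have hKU : KK k ⊆ UH := KK_subset (Nat.cast_nonneg k)
  have hsub : ∀ q ∈ Subtype.val '' S, 0 < q 2 := fun q hq => hS.subset hq
  set G : E3 → ℝ := fun q => 2 * zt Γ s k q * CD oo q +
      fderiv ℝ (zt Γ s k) q (tang (hS.normal q) (ZC oo q)) with hG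
  have hX := contDiff_ztZC (Γ := Γ) hs hsum k
  have hXc := hasCompactSupport_ztZC (Γ := Γ) (s := s) k
  have hXs : tsupport (fun y => zt Γ s k y • ZC oo y) ⊆ UH := (tsupport_ztZC k).trans hKU
  have hfv : ∀ q ∈ Subtype.val '' S, FV wt hS.normal (fun y => zt Γ s k y • ZC oo y) q =
      wt q * G q := by
    intro q hq
    have hq0 := hsub q hq
    have hd : DifferentiableAt ℝ (zt Γ s k) q :=
      ((contDiffOn_zt hs hsum k).contDiffAt (isOpen_UH.mem_nhds hq0)).differentiableAt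
        (by norm_num)
    exact FV_ZC oo hq0 hd (hS.norm_normal hq)
  have hint : IntegrableOn (fun q => wt q * G q) (Subtype.val '' S) (μHE[2] : Measure E3) :=
    (hS.integrableOn_FV hX hXc hXs).congr_fun hfv hS.measurableSet
  refine ⟨(integrableOn_harea hSm G).2 hint, ?_⟩
  rw [setIntegral_harea hSm G, ← setIntegral_congr_fun hS.measurableSet hfv]
  exact hS.first_variation hX hXc hXs

theorem fv_limit (hS : IsMinimalIn wt UH (Subtype.val '' S)) (hs : 0 < s)
    (hsum : Summable fun γ : Γ => bs s (op γ) oo)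
    (hfin : ∫⁻ q in S, ENNReal.ofReal (bs s oo q / Ps Γ s q) ∂harea < ⊤) :
    IntegrableOn (fun q : H3 => bs s oo q / Ps Γ s q) S harea ∧
    IntegrableOn (fun q : H3 => rt s oo q (hS.normal q) / Ps Γ s q) S harea ∧
    IntegrableOn (fun q : H3 => cross Γ s oo q (hS.normal q)) S harea ∧
    s * (s - 1) * ∫ q in S, bs s oo q / Ps Γ s q ∂harea =
      s * (s + 1) * ∫ q in S, rt s oo q (hS.normal q) / Ps Γ s q ∂harea -
        ∫ q in S, cross Γ s oo q (hS.normal q) ∂harea := by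
  have hSm := measurableSet_of_minimal hS
  obtain ⟨M, hM0, hM⟩ := exists_st_bound
  have hP : ∀ q : H3, 0 < Ps Γ s q := Ps_pos hs.le hsum
  have hf0 : ∀ q : H3, 0 ≤ bs s oo q / Ps Γ s q := fun q =>
    div_nonneg (bs_pos s oo q).le (hP q).le
  have hPc : ContinuousOn (Ps Γ s) UH := (contDiffOn_Ps hs.le hsum).continuousOn
  have hPcS : ContinuousOn (Ps Γ s) (Subtype.val '' S) := hPc.mono hS.subset
  have hP0S : ∀ q ∈ Subtype.val '' S, Ps Γ s q ≠ 0 := fun q hq =>
    (hP ⟨q, hS.subset hq⟩).ne'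
  have hCc : ContinuousOn (CD oo) (Subtype.val '' S) :=
    (contDiffOn_CD oo).continuousOn.mono hS.subset
  have hC0S : ∀ q ∈ Subtype.val '' S, CD oo q ≠ 0 := fun q hq =>
    (CD_pos oo ⟨q, hS.subset hq⟩).ne'
  have hrp : ∀ a : ℝ, ContinuousOn (fun q => CD oo q ^ a) (Subtype.val '' S) := fun a =>
    hCc.rpow_const fun q hq => Or.inl (hC0S q hq)
  have hmeas : ∀ {g : E3 → ℝ}, ContinuousOn g (Subtype.val '' S) →
      AEStronglyMeasurable (fun q : H3 => g q) (harea.restrict S) := by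
    intro g hg
    have h1 : ContinuousOn (fun q : H3 => g q) S :=
      hg.comp continuous_subtype_val.continuousOn fun q hq => mem_image_of_mem _ hq
    exact h1.aestronglyMeasurable hSm
  have hI1 : IntegrableOn (fun q : H3 => bs s oo q / Ps Γ s q) S harea := by
    refine ⟨hmeas ((hrp (-s)).div hPcS hP0S), ?_⟩
    rw [hasFiniteIntegral_iff_ofReal (Eventually.of_forall hf0)]
    exact hfin
  have hI2 : IntegrableOn (fun q : H3 => rt s oo q (hS.normal q) / Ps Γ s q) S harea := by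
    refine Integrable.mono' hI1 (hmeas (((hrp (-s - 2)).mul
      (continuousOn_const.add (continuousOn_nu_sq hS oo))).div hPcS hP0S)) ?_
    rw [ae_restrict_iff' hSm]
    refine Eventually.of_forall fun q hq => ?_
    have h1 := nu_sq_le oo q.2 (hS.norm_normal (mem_val_image.2 hq))
    have hCb : 0 < CD oo q ^ (-s - 2) := Real.rpow_pos_of_pos (CD_pos oo q) _
    have h2 : 0 ≤ 1 + nu oo q (hS.normal q) ^ 2 := by positivity
    have h3 := hP q
    have h6 : bs s oo q = CD oo q ^ (-s - 2) * CD oo q ^ 2 := by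
      have : bs s oo q = CD oo q ^ (-s) := rfl
      rw [this, rpow_step1, rpow_step2]
      ring
    rw [rt, Real.norm_of_nonneg (by positivity), h6]
    gcongr
  have hI3 : IntegrableOn (fun q : H3 => cross Γ s oo q (hS.normal q)) S harea := by
    refine Integrable.mono' (hI1.const_mul (s ^ 2)) (hmeas ((((continuousOn_const.mul
      (hrp (-s - 1))).mul (continuousOn_fderiv_tang hS (contDiffOn_Ps hs.le hsum)
      (contDiffOn_ZC oo).continuousOn))).div (hPcS.pow 2)
      fun q hq => pow_ne_zero 2 (hP0S q hq))) ?_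
    rw [ae_restrict_iff' hSm]
    exact Eventually.of_forall fun q hq =>
      abs_cross_le hs.le hsum oo q (hS.norm_normal (mem_val_image.2 hq))
  refine ⟨hI1, hI2, hI3, ?_⟩
  have hlim : Tendsto (fun k : ℕ => ∫ q in S, (2 * zt Γ s k q * CD oo q +
      fderiv ℝ (zt Γ s k) q (tang (hS.normal q) (ZC oo q))) ∂harea) atTop
      (𝓝 (∫ q in S, (s * (s - 1) * (bs s oo q / Ps Γ s q) -
        s * (s + 1) * (rt s oo q (hS.normal q) / Ps Γ s q) +
          cross Γ s oo q (hS.normal q)) ∂harea)) := by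
    refine tendsto_integral_of_dominated_convergence
      (fun q : H3 => (2 * s + (s * (s + 1) + s ^ 2) + 3 * M * s) * (bs s oo q / Ps Γ s q))
      (fun k => (truncated_eq hS hs.le hsum k).1.aestronglyMeasurable)
      (hI1.const_mul _) (fun k => ?_) ?_
    · rw [ae_restrict_iff' hSm]
      exact Eventually.of_forall fun q hq =>
        abs_integrand_le hs.le hsum hM k q (hS.norm_normal (mem_val_image.2 hq))
    · rw [ae_restrict_iff' hSm]
      refine Eventually.of_forall fun q hq => ?_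
      refine tendsto_const_nhds.congr' ?_
      filter_upwards [zt_eventuallyEq (Γ := Γ) (s := s) q] with k hk
      rw [hk.fderiv_eq, hk.self_of_nhds, fderiv_th hs.le hsum,
        fderiv_CD_tang oo q.2 (hS.norm_normal (mem_val_image.2 hq)), cross, rt, th]
      have h6 : bs s oo q = CD oo q ^ (-s - 2) * CD oo q ^ 2 := by
        have : bs s oo q = CD oo q ^ (-s) := rfl
        rw [this, rpow_step1, rpow_step2]
        ring
      rw [h6, rpow_step2]
      have := (hP q).ne'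
      field_simp
      ring
  have h0 : ∫ q in S, (s * (s - 1) * (bs s oo q / Ps Γ s q) -
        s * (s + 1) * (rt s oo q (hS.normal q) / Ps Γ s q) +
          cross Γ s oo q (hS.normal q)) ∂harea = 0 := by
    refine tendsto_nhds_unique hlim ?_
    simp_rw [fun k => (truncated_eq hS hs.le hsum k).2]
    exact tendsto_const_nhds
  have hA := hI1.const_mul (s * (s - 1))
  have hB := hI2.const_mul (s * (s + 1))
  have h1 := integral_add (μ := harea.restrict S)
    (f := fun q : H3 => s * (s - 1) * (bs s oo q / Ps Γ s q) -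
      s * (s + 1) * (rt s oo q (hS.normal q) / Ps Γ s q))
    (g := fun q : H3 => cross Γ s oo q (hS.normal q)) (hA.sub hB) hI3
  rw [integral_sub hA hB, integral_const_mul, integral_const_mul] at h1
  rw [h1] at h0
  linarith

end Pool.Agent.Helper45.MS
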