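import Mathlib
import Pool.Agent.Helper45.MS.Ker
import Pool.Agent.Helper45.MS.FV
import Pool.Agent.Helper45.MS.Lim

/-!
# Equivariance of the integrands

PROOF. Models in Helper82/Equivariance.lean: `exists_normal_map` (normal (γ q) = l • Dγ (normal q),
`l^2 cf^2 = 1`), `inner_fderiv_ext`, `fderiv_comp_ext`, `ext_of_inner_map`, `fderiv_ext_YY`, `fderiv_ext_YT`,
`fderiv_bt_YT`; `CD oo (γ q) = CD (op γ) q` as in `bt_op_smul`. Gradient fields are equivariant: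
`Dγ (ZC (op γ) q) = ZC oo (γ q)` and `Ps Γ s ∘ γ = Ps Γ s`. `tsum_cross_smul`:
`∑ - s C^(-s-1) fderiv (CD (op γ)) = fderiv (Ps Γ s)` (Ker), hence the sum of `s C^(-s-1) ZC (op γ) q` is
`- t^2 grad (Ps Γ s)`, and `fderiv f (tang N (t^2 grad f)) = t^2 (norm (grad f)^2 - inner (grad f) N ^2)`.
`summable_rt`: `rt <= bs` by `nu_sq_le`.
-/

open MeasureTheory MeasureTheory.Measure Module Set Filter Topology
open scoped ENNReal NNReal Gradient RealInnerProductSpace ContDiff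

namespace Pool.Agent.Helper45.MS

open Pool.Agent.Helper82

variable {Γ : Subgroup (Equiv.Perm H3)} {S : Set H3} {s : ℝ}

private lemma CD_smul (hΓ : Γ ≤ HIsom) (γ : Γ) (q : H3) :
    CD oo (γ • q : H3) = CD (op γ) q := by
  rw [CD_coe, CD_coe]
  have h := hΓ γ.2 q ((γ : Equiv.Perm H3)⁻¹ oo)
  have e : (γ : Equiv.Perm H3) ((γ : Equiv.Perm H3)⁻¹ oo) = oo := (γ : Equiv.Perm H3).apply_symm_apply oo
  rw [e] at h
  exact h

private lemma fderiv_CD_smul (hΓ : Γ ≤ HIsom) (γ : Γ) (q : H3) (v : E3) :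
    fderiv ℝ (CD (op γ)) q v =
      fderiv ℝ (CD oo) (γ • q : H3) (fderiv ℝ (ext (γ : Equiv.Perm H3)) q v) :=
  fderiv_comp_ext (hΓ γ.2) q (f := CD oo) (g := CD (op γ))
    (hasFDerivAt_CD oo ((γ : Equiv.Perm H3) q).2).differentiableAt
    (fun p => (CD_smul hΓ γ p).symm) v

private lemma coord_smul (γ : Γ) (q : H3) :
    ((γ • q : H3) : E3) 2 = cf (γ : Equiv.Perm H3) q * (q : E3) 2 :=
  (cf_mul (γ : Equiv.Perm H3) q).symm

lemma rt_smul (hΓ : Γ ≤ HIsom) (hS : IsMinimalIn wt UH (Subtype.val '' S))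
    (hinv : ∀ γ ∈ Γ, ∀ q, γ q ∈ S ↔ q ∈ S) (s : ℝ) (γ : Γ) {q : H3} (hq : q ∈ S) :
    rt s oo (γ • q : H3) (hS.normal (γ • q : H3)) = rt s (op γ) q (hS.normal q) := by
  obtain ⟨l, h1, h2⟩ := exists_normal_map hS (hΓ γ.2) (hinv γ γ.2) hq
  have h1' : hS.normal (γ • q : H3) =
      l • fderiv ℝ (ext (γ : Equiv.Perm H3)) q (hS.normal q) := h1
  have h3 : nu oo (γ • q : H3) (hS.normal (γ • q : H3)) =
      (l * cf (γ : Equiv.Perm H3) q) * nu (op γ) q (hS.normal q) := by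
    rw [nu, nu, h1', map_smul, ← fderiv_CD_smul hΓ, coord_smul, smul_eq_mul]
    ring
  rw [rt, rt, CD_smul hΓ, h3, mul_pow, mul_pow, h2, one_mul]

private lemma rt_nonneg (s : ℝ) (p q : H3) (N : E3) : 0 ≤ rt s p q N :=
  mul_nonneg (Real.rpow_nonneg (CD_pos p q).le _) (by positivity)

private lemma rt_le_bs (s : ℝ) (p q : H3) {N : E3} (hN : ‖N‖ = 1) : rt s p q N ≤ bs s p q := by
  have hC := CD_pos p q
  have h1 := nu_sq_le p q.2 hN
  have h2 : bs s p q = CD p q ^ (-s - 2) * CD p q ^ 2 := by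
    rw [bs, ← Real.rpow_natCast (CD p q) 2, ← Real.rpow_add hC]
    congr 1
    push_cast
    ring
  rw [h2, rt]
  exact mul_le_mul_of_nonneg_left h1 (Real.rpow_nonneg hC.le _)

lemma summable_rt (hs : 0 ≤ s) (hsum : Summable fun γ : Γ => bs s (op γ) oo) (q : H3) {N : E3}
    (hN : ‖N‖ = 1) : Summable fun γ : Γ => rt s (op γ) q N :=
  Summable.of_nonneg_of_le (fun γ => rt_nonneg s _ q N) (fun γ => rt_le_bs s _ q hN)
    (summable_bs hs hsum q)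

lemma tsum_rt_smul (hΓ : Γ ≤ HIsom) (hS : IsMinimalIn wt UH (Subtype.val '' S))
    (hinv : ∀ γ ∈ Γ, ∀ q, γ q ∈ S ↔ q ∈ S) (s : ℝ) {q : H3} (hq : q ∈ S) :
    ∑' γ : Γ, rt s oo (γ • q : H3) (hS.normal (γ • q : H3)) / Ps Γ s (γ • q : H3) =
      RR Γ s q (hS.normal q) := by
  rw [RR, ← tsum_div_const]
  refine tsum_congr fun γ => ?_
  rw [rt_smul hΓ hS hinv s γ hq, Ps_smul hΓ]

private lemma inner_ZC (p : H3) (q w : E3) : ⟪ZC p q, w⟫ = q 2 ^ 2 * fderiv ℝ (CD p) q w := by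
  rw [ZC, inner_smul_left, inner_gradient_left]
  rfl

private lemma ext_ZC (hΓ : Γ ≤ HIsom) (γ : Γ) (q : H3) :
    fderiv ℝ (ext (γ : Equiv.Perm H3)) q (ZC (op γ) q) = ZC oo (γ • q : H3) := by
  apply ext_of_inner_map (hΓ γ.2) q
  intro w
  rw [inner_fderiv_ext (hΓ γ.2), inner_ZC, inner_ZC, ← fderiv_CD_smul hΓ, coord_smul]
  ring

private lemma ext_tang_ZC (hΓ : Γ ≤ HIsom) (hS : IsMinimalIn wt UH (Subtype.val '' S))
    (hinv : ∀ γ ∈ Γ, ∀ q, γ q ∈ S ↔ q ∈ S) (γ : Γ) {q : H3} (hq : q ∈ S) :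
    tang (hS.normal (γ • q : H3)) (ZC oo (γ • q : H3)) =
      fderiv ℝ (ext (γ : Equiv.Perm H3)) q (tang (hS.normal q) (ZC (op γ) q)) := by
  obtain ⟨l, h1, h2⟩ := exists_normal_map hS (hΓ γ.2) (hinv γ γ.2) hq
  have h1' : hS.normal (γ • q : H3) =
      l • fderiv ℝ (ext (γ : Equiv.Perm H3)) q (hS.normal q) := h1
  rw [tang, tang, map_sub, map_smul, ← ext_ZC hΓ]
  congr 1
  rw [h1', inner_smul_right, inner_fderiv_ext (hΓ γ.2), smul_smul]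
  congr 1
  linear_combination ⟪ZC (op γ) (q : E3), hS.normal q⟫ * h2

private lemma fderiv_Ps_smul (hΓ : Γ ≤ HIsom) (hs : 0 ≤ s)
    (hsum : Summable fun γ : Γ => bs s (op γ) oo) (γ : Γ) (q : H3) (v : E3) :
    fderiv ℝ (Ps Γ s) (γ • q : H3) (fderiv ℝ (ext (γ : Equiv.Perm H3)) q v) =
      fderiv ℝ (Ps Γ s) q v :=
  (fderiv_comp_ext (hΓ γ.2) q (f := Ps Γ s) (g := Ps Γ s)
    (hasFDerivAt_Ps hs hsum (γ • q : H3)).differentiableAt
    (fun p => (Ps_smul hΓ s γ p).symm) v).symm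

lemma cross_smul (hΓ : Γ ≤ HIsom) (hS : IsMinimalIn wt UH (Subtype.val '' S))
    (hinv : ∀ γ ∈ Γ, ∀ q, γ q ∈ S ↔ q ∈ S) (hs : 0 ≤ s)
    (hsum : Summable fun γ : Γ => bs s (op γ) oo) (γ : Γ) {q : H3} (hq : q ∈ S) :
    cross Γ s oo (γ • q : H3) (hS.normal (γ • q : H3)) = cross Γ s (op γ) q (hS.normal q) := by
  rw [cross, cross, CD_smul hΓ, Ps_smul hΓ, ext_tang_ZC hΓ hS hinv γ hq,
    fderiv_Ps_smul hΓ hs hsum]

private lemma inner_tang (N V W : E3) : ⟪V, tang N W⟫ = ⟪W, tang N V⟫ := by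
  rw [tang, tang, inner_sub_right, inner_sub_right, inner_smul_right, inner_smul_right,
    real_inner_comm W V]
  ring

private lemma cross_eq (hs : 0 ≤ s) (hsum : Summable fun γ : Γ => bs s (op γ) oo) (p q : H3)
    (N : E3) : cross Γ s p q N =
      (-((q : E3) 2 ^ 2 / Ps Γ s q ^ 2)) * fderiv ℝ (bs s p) q (tang N (∇ (Ps Γ s) (q : E3))) := by
  have h1 : fderiv ℝ (Ps Γ s) q (tang N (ZC p q)) =
      (q : E3) 2 ^ 2 * fderiv ℝ (CD p) q (tang N (∇ (Ps Γ s) (q : E3))) := by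
    rw [← inner_gradient_left, inner_tang, inner_ZC]
  rw [cross, h1, (hasFDerivAt_bs s p q.2).fderiv, _root_.smul_apply, smul_eq_mul]
  ring

lemma tsum_cross_smul (hΓ : Γ ≤ HIsom) (hS : IsMinimalIn wt UH (Subtype.val '' S))
    (hinv : ∀ γ ∈ Γ, ∀ q, γ q ∈ S ↔ q ∈ S) (hs : 0 ≤ s)
    (hsum : Summable fun γ : Γ => bs s (op γ) oo) {q : H3} (hq : q ∈ S) :
    ∑' γ : Γ, cross Γ s oo (γ • q : H3) (hS.normal (γ • q : H3)) =
      - GT Γ s q (hS.normal q) := by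
  set W := tang (hS.normal q) (∇ (Ps Γ s) (q : E3)) with hW
  have h1 : HasSum (fun γ : Γ => fderiv ℝ (bs s (op γ)) q) (fderiv ℝ (Ps Γ s) q) := by
    rw [(hasFDerivAt_Ps hs hsum q).fderiv]
    exact (summable_norm_fderiv_bs hs hsum q).of_norm.hasSum
  have h2 : HasSum (fun γ : Γ => fderiv ℝ (bs s (op γ)) q W) (fderiv ℝ (Ps Γ s) q W) :=
    h1.mapL (ContinuousLinearMap.apply ℝ ℝ W)
  have h3 : ∀ γ : Γ, cross Γ s oo (γ • q : H3) (hS.normal (γ • q : H3)) =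
      (-((q : E3) 2 ^ 2 / Ps Γ s q ^ 2)) * fderiv ℝ (bs s (op γ)) q W := fun γ => by
    rw [cross_smul hΓ hS hinv hs hsum γ hq, cross_eq hs hsum]
  rw [tsum_congr h3, tsum_mul_left, h2.tsum_eq, ← inner_gradient_left, hW, tang,
    inner_sub_right, inner_smul_right, real_inner_self_eq_norm_sq, GT]
  ring

lemma GT_nonneg (Γ : Subgroup (Equiv.Perm H3)) (s : ℝ) (q : E3) {N : E3} (hN : ‖N‖ = 1) :
    0 ≤ GT Γ s q N := by
  have h1 : ⟪∇ (Ps Γ s) q, N⟫ ^ 2 ≤ ‖∇ (Ps Γ s) q‖ ^ 2 := by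
    have h := abs_real_inner_le_norm (∇ (Ps Γ s) q) N
    rw [hN, mul_one] at h
    rw [← sq_abs]
    gcongr
  rw [GT]
  have h2 : 0 ≤ ‖∇ (Ps Γ s) q‖ ^ 2 - ⟪∇ (Ps Γ s) q, N⟫ ^ 2 := sub_nonneg.2 h1
  positivity

end Pool.Agent.Helper45.MS
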