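import Mathlib
import Pool.Agent.Helper45.MS.Base

/-!
# Unfolding integrals over an invariant surface

PROOF. `hasSum_et`: `∑ et Γ (γ • q) = 1`, so `∫_S f = ∫_S ∑ et (γ q) f q = ∑ ∫_S et (γ q) f q =
∑ ∫_S et q f (γ⁻¹ q)` by `measurePreserving_restrict` (Helper82/AreaInv), then `Equiv.inv` and `lintegral_tsum`
(`countable_of_discrete`). Models: `lintegral_et_le` and the end of `integral_fderiv_et` in
Helper82/FiniteArea.lean. For the real version: `hasSum_integral_of_summable_integral_norm`; the sum of the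
integrals of the norms is the integral of `|f|` (use the first theorem).
-/

open MeasureTheory MeasureTheory.Measure Module Set Filter Topology
open scoped ENNReal NNReal Gradient RealInnerProductSpace ContDiff

namespace Pool.Agent.Helper45.MS

open Pool.Agent.Helper82

variable {Γ : Subgroup (Equiv.Perm H3)} {S : Set H3}

private lemma mpres (hΓ : Γ ≤ HIsom) (hSm : MeasurableSet S)
    (hinv : ∀ γ ∈ Γ, ∀ q, γ q ∈ S ↔ q ∈ S) (γ : Γ) :
    MeasurePreserving (fun q : H3 => (γ • q : H3)) (harea.restrict S) (harea.restrict S) :=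
  measurePreserving_restrict (hΓ γ.2) hSm (hinv _ γ.2)

private lemma membd (hΓ : Γ ≤ HIsom) (γ : Γ) :
    MeasurableEmbedding (fun q : H3 => (γ • q : H3)) :=
  (toHomeo (hΓ γ.2)).measurableEmbedding

private lemma cont_et_smul (hΓ : Γ ≤ HIsom) (hd : IsDiscrete Γ) (ht : IsTorsionFree Γ) (γ : Γ) :
    Continuous fun q : H3 => et Γ (γ • q : H3) :=
  (continuous_et hΓ hd ht).comp (continuous_of_mem_HIsom (hΓ γ.2))

theorem unfold_lintegral (hΓ : Γ ≤ HIsom) (hd : IsDiscrete Γ) (ht : IsTorsionFree Γ)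
    (hSm : MeasurableSet S) (hinv : ∀ γ ∈ Γ, ∀ q, γ q ∈ S ↔ q ∈ S) {f : H3 → ℝ≥0∞}
    (hf : AEMeasurable f (harea.restrict S)) :
    ∫⁻ q in S, f q ∂harea =
      ∫⁻ q in S, ENNReal.ofReal (et Γ q) * ∑' γ : Γ, f (γ • q : H3) ∂harea := by
  have hcount := countable_of_discrete hd
  have hm0 : Measurable fun q : H3 => ENNReal.ofReal (et Γ q) :=
    (continuous_et hΓ hd ht).measurable.ennreal_ofReal
  have hmeas : ∀ γ : Γ, Measurable fun q : H3 => ENNReal.ofReal (et Γ (γ • q : H3)) := fun γ =>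
    (cont_et_smul hΓ hd ht γ).measurable.ennreal_ofReal
  have hfc : ∀ γ : Γ, AEMeasurable (fun q : H3 => f (γ • q : H3)) (harea.restrict S) := fun γ =>
    hf.comp_quasiMeasurePreserving (mpres hΓ hSm hinv γ).quasiMeasurePreserving
  calc ∫⁻ q in S, f q ∂harea
      = ∫⁻ q in S, ∑' γ : Γ, ENNReal.ofReal (et Γ (γ • q : H3)) * f q ∂harea := by
        congr 1
        funext q
        have h1 := hasSum_et hΓ hd ht q
        rw [ENNReal.tsum_mul_right, ← ENNReal.ofReal_tsum_of_nonneg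
          (fun γ => (et_pos hΓ hd ht _).le) h1.summable, h1.tsum_eq, ENNReal.ofReal_one, one_mul]
    _ = ∑' γ : Γ, ∫⁻ q in S, ENNReal.ofReal (et Γ (γ • q : H3)) * f q ∂harea :=
        lintegral_tsum fun γ => (hmeas γ).aemeasurable.mul hf
    _ = ∑' γ : Γ, ∫⁻ q in S, ENNReal.ofReal (et Γ q) * f (γ⁻¹ • q : H3) ∂harea := by
        congr 1
        funext γ
        have h := (mpres hΓ hSm hinv γ).lintegral_comp_emb (membd hΓ γ)
          (fun q : H3 => ENNReal.ofReal (et Γ q) * f (γ⁻¹ • q : H3))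
        rw [← h]
        simp only [inv_smul_smul]
    _ = ∑' γ : Γ, ∫⁻ q in S, ENNReal.ofReal (et Γ q) * f (γ • q : H3) ∂harea :=
        (Equiv.inv Γ).tsum_eq
          (fun γ : Γ => ∫⁻ q in S, ENNReal.ofReal (et Γ q) * f (γ • q : H3) ∂harea)
    _ = ∫⁻ q in S, ∑' γ : Γ, ENNReal.ofReal (et Γ q) * f (γ • q : H3) ∂harea :=
        (lintegral_tsum fun γ => hm0.aemeasurable.mul (hfc γ)).symm
    _ = _ := by
        congr 1
        funext q
        rw [ENNReal.tsum_mul_left]

theorem unfold_integral (hΓ : Γ ≤ HIsom) (hd : IsDiscrete Γ) (ht : IsTorsionFree Γ)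
    (hSm : MeasurableSet S) (hinv : ∀ γ ∈ Γ, ∀ q, γ q ∈ S ↔ q ∈ S) {f : H3 → ℝ}
    (hf : IntegrableOn f S harea) :
    IntegrableOn (fun q : H3 => et Γ q * ∑' γ : Γ, f (γ • q : H3)) S harea ∧
    ∫ q in S, f q ∂harea = ∫ q in S, et Γ q * ∑' γ : Γ, f (γ • q : H3) ∂harea := by
  have hcount := countable_of_discrete hd
  have hf' : Integrable f (harea.restrict S) := hf
  have het0 : ∀ (γ : Γ) (q : H3), 0 < et Γ (γ • q : H3) := fun γ q => et_pos hΓ hd ht _
  have hfin : ∀ (q : H3) (s : Finset Γ), ∑ γ ∈ s, et Γ (γ • q : H3) ≤ 1 := fun q s =>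
    sum_le_hasSum s (fun γ _ => (het0 γ q).le) (hasSum_et hΓ hd ht q)
  have hle1 : ∀ (γ : Γ) (q : H3), et Γ (γ • q : H3) ≤ 1 := fun γ q => by
    have h := hfin q {γ}
    rwa [Finset.sum_singleton] at h
  -- the two families
  set A : Γ → H3 → ℝ := fun γ q => et Γ (γ • q : H3) * f q with hA
  set F : Γ → H3 → ℝ := fun γ q => et Γ q * f (γ • q : H3) with hF
  have hAi : ∀ γ, Integrable (A γ) (harea.restrict S) := by
    intro γ
    refine Integrable.mono' hf'.norm
      ((cont_et_smul hΓ hd ht γ).aestronglyMeasurable.mul hf'.aestronglyMeasurable) ?_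
    refine Eventually.of_forall fun q => ?_
    simp only [hA]
    rw [norm_mul, Real.norm_of_nonneg (het0 γ q).le]
    calc et Γ (γ • q : H3) * ‖f q‖ ≤ 1 * ‖f q‖ := by
          have := hle1 γ q
          gcongr
      _ = ‖f q‖ := one_mul _
  have hFA : ∀ γ : Γ, F γ = (A γ⁻¹) ∘ (fun q : H3 => (γ • q : H3)) := by
    intro γ
    funext q
    simp only [hA, hF, Function.comp_apply, inv_smul_smul]
  have hFi : ∀ γ, Integrable (F γ) (harea.restrict S) := by
    intro γ
    rw [hFA γ, (mpres hΓ hSm hinv γ).integrable_comp_emb (membd hΓ γ)]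
    exact hAi γ⁻¹
  have hAs : Summable fun γ : Γ => ∫ q in S, ‖A γ q‖ ∂harea := by
    refine summable_of_sum_le (c := ∫ q in S, ‖f q‖ ∂harea)
      (fun γ => integral_nonneg fun _ => norm_nonneg _) fun s => ?_
    rw [← integral_finsetSum _ fun γ _ => (hAi γ).norm]
    refine integral_mono (integrable_finsetSum _ fun γ _ => (hAi γ).norm) hf'.norm fun q => ?_
    calc ∑ γ ∈ s, ‖A γ q‖ = (∑ γ ∈ s, et Γ (γ • q : H3)) * ‖f q‖ := by
          rw [Finset.sum_mul]
          refine Finset.sum_congr rfl fun γ _ => ?_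
          simp only [hA]
          rw [norm_mul, Real.norm_of_nonneg (het0 γ q).le]
      _ ≤ 1 * ‖f q‖ := by
          have := hfin q s
          gcongr
      _ = ‖f q‖ := one_mul _
  have hint : ∀ γ : Γ, ∫ q in S, F γ q ∂harea = ∫ q in S, A γ⁻¹ q ∂harea := by
    intro γ
    rw [← (mpres hΓ hSm hinv γ).integral_comp (membd hΓ γ) (A γ⁻¹), hFA γ]
    rfl
  have hintn : ∀ γ : Γ, ∫ q in S, ‖F γ q‖ ∂harea = ∫ q in S, ‖A γ⁻¹ q‖ ∂harea := by
    intro γ
    rw [← (mpres hΓ hSm hinv γ).integral_comp (membd hΓ γ) (fun q => ‖A γ⁻¹ q‖), hFA γ]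
    rfl
  have hFs : Summable fun γ : Γ => ∫ q in S, ‖F γ q‖ ∂harea := by
    have h := (Equiv.inv Γ).summable_iff.2 hAs
    refine h.congr fun γ => ?_
    rw [hintn]
    rfl
  have hFt : ∀ q : H3, ∑' γ : Γ, F γ q = et Γ q * ∑' γ : Γ, f (γ • q : H3) := fun q =>
    tsum_mul_left
  -- integrability of the sum
  have hlin : ∫⁻ q in S, ∑' γ : Γ, ‖F γ q‖ₑ ∂harea < ⊤ := by
    have h1 := unfold_lintegral hΓ hd ht hSm hinv (f := fun q => ‖f q‖ₑ)
      hf'.aestronglyMeasurable.enorm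
    have h2 : ∫⁻ q in S, ‖f q‖ₑ ∂harea < ⊤ := hf'.hasFiniteIntegral
    rw [h1] at h2
    refine lt_of_le_of_lt (le_of_eq ?_) h2
    congr 1
    funext q
    rw [← ENNReal.tsum_mul_left]
    refine tsum_congr fun γ => ?_
    simp only [hF]
    rw [enorm_mul, Real.enorm_of_nonneg (et_pos hΓ hd ht q).le]
  have hFm : ∀ γ, AEStronglyMeasurable (F γ) (harea.restrict S) := fun γ =>
    (hFi γ).aestronglyMeasurable
  have hsummae : ∀ᵐ q ∂(harea.restrict S), Summable fun γ : Γ => F γ q := by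
    have h1 : AEMeasurable (fun q => ∑' γ : Γ, ‖F γ q‖ₑ) (harea.restrict S) :=
      AEMeasurable.tsum fun γ => (hFm γ).enorm
    filter_upwards [ae_lt_top' h1 hlin.ne] with q hq
    have h2 : Summable fun γ : Γ => ‖F γ q‖₊ := ENNReal.tsum_coe_ne_top_iff_summable.1 hq.ne
    exact Summable.of_nnnorm h2
  have hFI : Integrable (fun q => ∑' γ : Γ, F γ q) (harea.restrict S) := by
    refine ⟨?_, ?_⟩
    · exact aestronglyMeasurable_of_tendsto_ae atTop
        (f := fun (s : Finset Γ) q => ∑ γ ∈ s, F γ q)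
        (fun s => Finset.aestronglyMeasurable_fun_sum _ fun γ _ => hFm γ)
        (by
          filter_upwards [hsummae] with q hq
          exact hq.hasSum)
    · refine lt_of_le_of_lt (lintegral_mono fun q => ?_) hlin
      exact enorm_tsum_le_tsum_enorm
  have hAt : ∀ q : H3, ∑' γ : Γ, A γ q = f q := fun q => by
    simp only [hA]
    rw [tsum_mul_right, (hasSum_et hΓ hd ht q).tsum_eq, one_mul]
  refine ⟨?_, ?_⟩
  · refine Integrable.congr hFI (Eventually.of_forall fun q => ?_)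
    exact hFt q
  · have h1 := (hasSum_integral_of_summable_integral_norm hFi hFs).tsum_eq
    have h2 := (hasSum_integral_of_summable_integral_norm hAi hAs).tsum_eq
    have h3 : ∫ q in S, f q ∂harea = ∫ q in S, ∑' γ : Γ, A γ q ∂harea := by
      congr 1
      funext q
      exact (hAt q).symm
    have h4 : ∫ q in S, et Γ q * ∑' γ : Γ, f (γ • q : H3) ∂harea =
        ∫ q in S, ∑' γ : Γ, F γ q ∂harea := by
      congr 1
      funext q
      exact (hFt q).symm
    rw [h3, h4, ← h1, ← h2]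
    simp_rw [hint]
    exact ((Equiv.inv Γ).tsum_eq (fun γ : Γ => ∫ q in S, A γ q ∂harea)).symm

end Pool.Agent.Helper45.MS
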