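import Mathlib
import Pool.Agent.Helper45.MS.Unf
import Pool.Agent.Helper45.MS.Equi

/-!
# The integral estimate and its consequence almost everywhere

PROOF. `eta = bs s oo / Ps Γ s`: by `bs_op_smul` the sum of `eta (γ q)` is 1, so by `unfold_lintegral`
`∫⁻_S eta = ∫⁻_S et <= harea (D ∩ S)` (`lintegral_et_le`). Then `fv_limit` and `unfold_integral` with `tsum_rt_smul`,
`tsum_cross_smul` give `s (s+1) ∫ et RR + ∫ et GT = s (s-1) ∫ eta`, and `s (s+1) >= 1`, `s (s-1) <= 2 (s-1)`.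
`ae_tendsto`: with `s_k = 1 + (1/2)^k` the sum over `k` of the integrals is finite, so for almost every `q` the
series `∑_k et (RR + GT)` converges (`lintegral_tsum`, `ae_lt_top'`), and both `RR` and `GT` are nonnegative.
-/

open MeasureTheory MeasureTheory.Measure Module Set Filter Topology
open scoped ENNReal NNReal Gradient RealInnerProductSpace ContDiff

namespace Pool.Agent.Helper45.MS

open Pool.Agent.Helper82

variable {Γ : Subgroup (Equiv.Perm H3)} {S : Set H3} {s : ℝ}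

/-- The two integrands are nonnegative. -/
private lemma RR_nonneg_aux {s : ℝ} (hs : 0 ≤ s) (hsum : Summable fun γ : Γ => bs s (op γ) oo)
    (q : H3) (N : E3) : 0 ≤ RR Γ s q N := by
  unfold RR
  refine div_nonneg (tsum_nonneg fun γ => ?_) (Ps_pos hs hsum q).le
  unfold rt
  exact mul_nonneg (Real.rpow_nonneg (CD_pos _ _).le _) (by positivity)

/-- The estimate together with the integrability. -/
private lemma est_full (hΓ : Γ ≤ HIsom) (hd : IsDiscrete Γ) (ht : IsTorsionFree Γ)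
    (hS : IsMinimalIn wt UH (Subtype.val '' S)) (hinv : ∀ γ ∈ Γ, ∀ q, γ q ∈ S ↔ q ∈ S)
    {D : Set H3} (hD : MeasurableSet D) (hcov : ∀ q : H3, ∃ γ ∈ Γ, γ q ∈ D)
    (hfinD : harea (D ∩ S) < ⊤) (hs : 1 < s) (hs2 : s ≤ 2)
    (hsum : Summable fun γ : Γ => bs s (op γ) oo) :
    IntegrableOn (fun q : H3 =>
      et Γ q * (RR Γ s q (hS.normal q) + GT Γ s q (hS.normal q))) S harea ∧
    ∫⁻ q in S, ENNReal.ofReal (et Γ q * (RR Γ s q (hS.normal q) + GT Γ s q (hS.normal q))) ∂harea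
      ≤ ENNReal.ofReal (2 * (s - 1)) * harea (D ∩ S) := by
  have hs0 : 0 < s := by linarith
  have hSm := measurableSet_of_minimal hS
  have hPpos : ∀ q : H3, 0 < Ps Γ s q := fun q => Ps_pos hs0.le hsum q
  have hηpos : ∀ q : H3, 0 < bs s oo q / Ps Γ s q := fun q => div_pos (bs_pos s oo q) (hPpos q)
  have hηc : Continuous (fun q : H3 => bs s oo q / Ps Γ s q) := by
    have h1 : Continuous (fun q : H3 => bs s oo q) :=
      continuous_restrict (contDiffOn_bs s oo).continuousOn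
    have h2 : Continuous (fun q : H3 => Ps Γ s q) :=
      continuous_restrict (contDiffOn_Ps hs0.le hsum).continuousOn
    exact h1.div h2 (fun q => (hPpos q).ne')
  have hsumη : ∀ q : H3,
      HasSum (fun γ : Γ => bs s oo (γ • q : H3) / Ps Γ s (γ • q : H3)) 1 := by
    intro q
    have h1 : ∀ γ : Γ, bs s oo (γ • q : H3) / Ps Γ s (γ • q : H3) =
        bs s (op γ) q / Ps Γ s q := by
      intro γ
      have h2 := bs_op_smul hΓ s 1 γ q
      rw [op_one, one_mul] at h2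
      rw [h2, Ps_smul hΓ s γ q]
    simp only [h1]
    have h3 := (summable_bs hs0.le hsum q).hasSum.div_const (Ps Γ s q)
    have h4 : (∑' γ : Γ, bs s (op γ) q) / Ps Γ s q = 1 := div_self (hPpos q).ne'
    rwa [h4] at h3
  have hL1 : ∫⁻ q in S, ENNReal.ofReal (bs s oo q / Ps Γ s q) ∂harea =
      ∫⁻ q in S, ENNReal.ofReal (et Γ q) ∂harea := by
    rw [unfold_lintegral hΓ hd ht hSm hinv hηc.measurable.ennreal_ofReal.aemeasurable]
    refine lintegral_congr fun q => ?_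
    rw [← ENNReal.ofReal_tsum_of_nonneg (fun γ => (hηpos _).le) (hsumη q).summable,
      (hsumη q).tsum_eq, ENNReal.ofReal_one, mul_one]
  have hL2 : ∫⁻ q in S, ENNReal.ofReal (bs s oo q / Ps Γ s q) ∂harea ≤ harea (D ∩ S) :=
    hL1.trans_le (lintegral_et_le hΓ hd ht hSm hinv hD hcov)
  obtain ⟨i1, i2, i3, heq⟩ := fv_limit hS hs0 hsum (hL2.trans_lt hfinD)
  obtain ⟨j1, e1⟩ := unfold_integral hΓ hd ht hSm hinv i2
  obtain ⟨j2, e2⟩ := unfold_integral hΓ hd ht hSm hinv i3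
  have c1 : EqOn (fun q : H3 => et Γ q * ∑' γ : Γ,
      rt s oo (γ • q : H3) (hS.normal (γ • q : H3)) / Ps Γ s (γ • q : H3))
      (fun q : H3 => et Γ q * RR Γ s q (hS.normal q)) S := fun q hq => by
    simp only []
    rw [tsum_rt_smul hΓ hS hinv s hq]
  have c2 : EqOn (fun q : H3 => et Γ q * ∑' γ : Γ,
      cross Γ s oo (γ • q : H3) (hS.normal (γ • q : H3)))
      (fun q : H3 => -(et Γ q * GT Γ s q (hS.normal q))) S := fun q hq => by
    simp only []
    rw [tsum_cross_smul hΓ hS hinv hs0.le hsum hq, mul_neg]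
  have j1' : IntegrableOn (fun q : H3 => et Γ q * RR Γ s q (hS.normal q)) S harea :=
    j1.congr_fun c1 hSm
  have j2' : IntegrableOn (fun q : H3 => et Γ q * GT Γ s q (hS.normal q)) S harea := by
    have h1 := (j2.congr_fun c2 hSm).neg
    refine h1.congr_fun (fun q _ => ?_) hSm
    simp
  have e1' : ∫ q in S, rt s oo q (hS.normal q) / Ps Γ s q ∂harea =
      ∫ q in S, et Γ q * RR Γ s q (hS.normal q) ∂harea := by
    rw [e1, setIntegral_congr_fun hSm c1]
  have e2' : ∫ q in S, cross Γ s oo q (hS.normal q) ∂harea =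
      - ∫ q in S, et Γ q * GT Γ s q (hS.normal q) ∂harea := by
    rw [e2, setIntegral_congr_fun hSm c2, integral_neg]
  have n1 : ∀ q ∈ S, 0 ≤ et Γ q * RR Γ s q (hS.normal q) := fun q _ =>
    mul_nonneg (et_pos hΓ hd ht q).le (RR_nonneg_aux hs0.le hsum q _)
  have n2 : ∀ q ∈ S, 0 ≤ et Γ q * GT Γ s q (hS.normal q) := fun q hq =>
    mul_nonneg (et_pos hΓ hd ht q).le (GT_nonneg Γ s q (hS.norm_normal (mem_val_image.2 hq)))
  have I1 : 0 ≤ ∫ q in S, et Γ q * RR Γ s q (hS.normal q) ∂harea := setIntegral_nonneg hSm n1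
  have I0 : 0 ≤ ∫ q in S, bs s oo q / Ps Γ s q ∂harea :=
    setIntegral_nonneg hSm fun q _ => (hηpos q).le
  have hadd : (fun q : H3 => et Γ q * (RR Γ s q (hS.normal q) + GT Γ s q (hS.normal q))) =
      fun q : H3 => et Γ q * RR Γ s q (hS.normal q) + et Γ q * GT Γ s q (hS.normal q) := by
    funext q
    ring
  have hint : IntegrableOn (fun q : H3 =>
      et Γ q * (RR Γ s q (hS.normal q) + GT Γ s q (hS.normal q))) S harea := by
    rw [hadd]
    exact j1'.add j2'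
  refine ⟨hint, ?_⟩
  have hval : ∫ q in S, et Γ q * (RR Γ s q (hS.normal q) + GT Γ s q (hS.normal q)) ∂harea =
      ∫ q in S, et Γ q * RR Γ s q (hS.normal q) ∂harea +
        ∫ q in S, et Γ q * GT Γ s q (hS.normal q) ∂harea := by
    rw [hadd]
    exact integral_add j1' j2'
  have hle : ∫ q in S, et Γ q * (RR Γ s q (hS.normal q) + GT Γ s q (hS.normal q)) ∂harea ≤
      2 * (s - 1) * ∫ q in S, bs s oo q / Ps Γ s q ∂harea := by
    rw [hval]
    rw [e1', e2'] at heq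
    nlinarith [mul_nonneg (by nlinarith : (0 : ℝ) ≤ s * (s + 1) - 1) I1,
      mul_nonneg (by nlinarith : (0 : ℝ) ≤ 2 * (s - 1) - s * (s - 1)) I0]
  have hnn : 0 ≤ᵐ[harea.restrict S]
      fun q : H3 => et Γ q * (RR Γ s q (hS.normal q) + GT Γ s q (hS.normal q)) := by
    refine (ae_restrict_of_forall_mem hSm fun q hq => ?_)
    have h1 := n1 q hq
    have h2 := n2 q hq
    simp only [Pi.zero_apply, mul_add]
    exact add_nonneg h1 h2
  rw [← ofReal_integral_eq_lintegral_ofReal hint hnn]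
  calc ENNReal.ofReal
        (∫ q in S, et Γ q * (RR Γ s q (hS.normal q) + GT Γ s q (hS.normal q)) ∂harea)
      ≤ ENNReal.ofReal (2 * (s - 1) * ∫ q in S, bs s oo q / Ps Γ s q ∂harea) :=
        ENNReal.ofReal_le_ofReal hle
    _ = ENNReal.ofReal (2 * (s - 1)) *
          ENNReal.ofReal (∫ q in S, bs s oo q / Ps Γ s q ∂harea) :=
        ENNReal.ofReal_mul (by linarith)
    _ = ENNReal.ofReal (2 * (s - 1)) *
          ∫⁻ q in S, ENNReal.ofReal (bs s oo q / Ps Γ s q) ∂harea := by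
        rw [ofReal_integral_eq_lintegral_ofReal i1
          (Eventually.of_forall fun q => (hηpos q).le)]
    _ ≤ ENNReal.ofReal (2 * (s - 1)) * harea (D ∩ S) := by gcongr

theorem est (hΓ : Γ ≤ HIsom) (hd : IsDiscrete Γ) (ht : IsTorsionFree Γ)
    (hS : IsMinimalIn wt UH (Subtype.val '' S)) (hinv : ∀ γ ∈ Γ, ∀ q, γ q ∈ S ↔ q ∈ S)
    {D : Set H3} (hD : MeasurableSet D) (hcov : ∀ q : H3, ∃ γ ∈ Γ, γ q ∈ D)
    (hfinD : harea (D ∩ S) < ⊤) (hs : 1 < s) (hs2 : s ≤ 2)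
    (hsum : Summable fun γ : Γ => bs s (op γ) oo) :
    ∫⁻ q in S, ENNReal.ofReal (et Γ q * (RR Γ s q (hS.normal q) + GT Γ s q (hS.normal q))) ∂harea
      ≤ ENNReal.ofReal (2 * (s - 1)) * harea (D ∩ S) :=
  (est_full hΓ hd ht hS hinv hD hcov hfinD hs hs2 hsum).2

theorem ae_tendsto (hΓ : Γ ≤ HIsom) (hd : IsDiscrete Γ) (ht : IsTorsionFree Γ)
    (hS : IsMinimalIn wt UH (Subtype.val '' S)) (hinv : ∀ γ ∈ Γ, ∀ q, γ q ∈ S ↔ q ∈ S)
    {D : Set H3} (hD : MeasurableSet D) (hcov : ∀ q : H3, ∃ γ ∈ Γ, γ q ∈ D)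
    (hfinD : harea (D ∩ S) < ⊤)
    (hsum : ∀ s : ℝ, 1 < s → Summable fun γ : Γ => bs s (op γ) oo) :
    ∀ᵐ q : H3 ∂(harea.restrict S),
      Tendsto (fun k : ℕ => RR Γ (1 + (1 / 2) ^ k) q (hS.normal q)) atTop (𝓝 0) ∧
      Tendsto (fun k : ℕ => GT Γ (1 + (1 / 2) ^ k) q (hS.normal q)) atTop (𝓝 0) := by
  have hSm := measurableSet_of_minimal hS
  have hk1 : ∀ k : ℕ, (1 : ℝ) < 1 + (1 / 2) ^ k := fun k => by
    have h : (0 : ℝ) < (1 / 2) ^ k := by positivity
    linarith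
  have hk2 : ∀ k : ℕ, (1 : ℝ) + (1 / 2) ^ k ≤ 2 := fun k => by
    have h : ((1 : ℝ) / 2) ^ k ≤ 1 := pow_le_one₀ (by norm_num) (by norm_num)
    linarith
  have hE := fun k : ℕ =>
    est_full hΓ hd ht hS hinv hD hcov hfinD (hk1 k) (hk2 k) (hsum _ (hk1 k))
  set F : ℕ → H3 → ℝ := fun k q => et Γ q * (RR Γ (1 + (1 / 2) ^ k) q (hS.normal q) +
    GT Γ (1 + (1 / 2) ^ k) q (hS.normal q)) with hF
  have hmeas : ∀ k, AEMeasurable (fun q => ENNReal.ofReal (F k q)) (harea.restrict S) :=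
    fun k => (hE k).1.aestronglyMeasurable.aemeasurable.ennreal_ofReal
  have hgeo : ∑' k : ℕ, ENNReal.ofReal (2 * (1 + (1 / 2) ^ k - 1)) ≠ ⊤ := by
    have h1 : Summable fun k : ℕ => (2 : ℝ) * (1 + (1 / 2) ^ k - 1) := by
      have h2 : Summable fun k : ℕ => (2 : ℝ) * (1 / 2) ^ k :=
        (summable_geometric_of_lt_one (by norm_num) (by norm_num)).mul_left 2
      refine h2.congr fun k => ?_
      ring
    rw [← ENNReal.ofReal_tsum_of_nonneg (fun k => by linarith [hk1 k]) h1]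
    exact ENNReal.ofReal_ne_top
  have htot : ∫⁻ q in S, ∑' k, ENNReal.ofReal (F k q) ∂harea ≠ ⊤ := by
    rw [lintegral_tsum hmeas]
    refine ne_top_of_le_ne_top ?_ (ENNReal.tsum_le_tsum fun k => (hE k).2)
    rw [ENNReal.tsum_mul_right]
    exact ENNReal.mul_ne_top hgeo hfinD.ne
  have hae := ae_lt_top' (AEMeasurable.tsum hmeas) htot
  filter_upwards [hae, ae_restrict_mem hSm] with q hq hqS
  have hN := hS.norm_normal (mem_val_image.2 hqS)
  have hep := et_pos hΓ hd ht q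
  have hR : ∀ k : ℕ, 0 ≤ RR Γ (1 + (1 / 2) ^ k) q (hS.normal q) := fun k =>
    RR_nonneg_aux (by linarith [hk1 k]) (hsum _ (hk1 k)) q _
  have hG : ∀ k : ℕ, 0 ≤ GT Γ (1 + (1 / 2) ^ k) q (hS.normal q) := fun k =>
    GT_nonneg Γ _ q hN
  have h1 : Tendsto (fun k => ENNReal.ofReal (F k q)) atTop (𝓝 0) :=
    ENNReal.tendsto_atTop_zero_of_tsum_ne_top hq.ne
  have h2 : Tendsto (fun k => F k q) atTop (𝓝 0) := by
    have h3 := (ENNReal.tendsto_toReal ENNReal.zero_ne_top).comp h1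
    rw [ENNReal.toReal_zero] at h3
    refine h3.congr fun k => ?_
    simp only [Function.comp_apply]
    exact ENNReal.toReal_ofReal (mul_nonneg hep.le (add_nonneg (hR k) (hG k)))
  have h4 : Tendsto (fun k : ℕ => RR Γ (1 + (1 / 2) ^ k) q (hS.normal q) +
      GT Γ (1 + (1 / 2) ^ k) q (hS.normal q)) atTop (𝓝 0) := by
    have h5 := h2.const_mul (et Γ q)⁻¹
    rw [mul_zero] at h5
    refine h5.congr fun k => ?_
    simp only [hF]
    rw [← mul_assoc, inv_mul_cancel₀ hep.ne', one_mul]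
  exact ⟨squeeze_zero hR (fun k => by linarith [hG k]) h4,
    squeeze_zero hG (fun k => by linarith [hR k]) h4⟩

end Pool.Agent.Helper45.MS
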