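import Mathlib
import Pool.Agent.Helper45.MS.Est
import Pool.Agent.Helper45.MS.Endg
import Pool.Agent.Helper45.MS.Rig
import Pool.Agent.Helper45.MS.Cnv
import Pool.Agent.Helper82.Final

/-!
# Minimal surfaces of finite area for groups of critical exponent at most one
-/

open MeasureTheory MeasureTheory.Measure Module Set Filter Topology
open scoped ENNReal NNReal Gradient RealInnerProductSpace ContDiff

namespace Pool.Agent.Helper45.MS

open Pool.Agent.Helper82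

variable {Γ : Subgroup (Equiv.Perm H3)} {S : Set H3}

/-- The points `q` with `nu q x M = 0` form a totally geodesic plane. -/
lemma nu_zero_iff (x : H3) {M : E3} (hM : ‖M‖ = 1) :
    ∃ A B C D : ℝ, 0 < B ^ 2 + C ^ 2 - 4 * A * D ∧ ∀ q : H3, nu q x M = 0 ↔ q ∈ PL A B C D := by
  have hx := x.2
  have hM2 : M 0 ^ 2 + M 1 ^ 2 + M 2 ^ 2 = 1 := by rw [← norm_sq_eq, hM, one_pow]
  set x0 := (x : E3) 0
  set x1 := (x : E3) 1
  set x2 := (x : E3) 2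
  refine ⟨- M 2, 2 * x0 * M 2 - 2 * x2 * M 0, 2 * x1 * M 2 - 2 * x2 * M 1,
    2 * x2 * x0 * M 0 + 2 * x2 * x1 * M 1 + (x2 ^ 2 - x0 ^ 2 - x1 ^ 2) * M 2, ?_, ?_⟩
  · have : (2 * x0 * M 2 - 2 * x2 * M 0) ^ 2 + (2 * x1 * M 2 - 2 * x2 * M 1) ^ 2 -
        4 * (- M 2) * (2 * x2 * x0 * M 0 + 2 * x2 * x1 * M 1 + (x2 ^ 2 - x0 ^ 2 - x1 ^ 2) * M 2) =
        4 * x2 ^ 2 * (M 0 ^ 2 + M 1 ^ 2 + M 2 ^ 2) := by ring
    rw [this, hM2]
    positivity
  · intro q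
    have hq := q.2
    have h1 : nu q x M = (2 * x2 * q.1 2)⁻¹ * (- M 2 * ‖(q : E3)‖ ^ 2 +
        (2 * x0 * M 2 - 2 * x2 * M 0) * q.1 0 + (2 * x1 * M 2 - 2 * x2 * M 1) * q.1 1 +
        (2 * x2 * x0 * M 0 + 2 * x2 * x1 * M 1 + (x2 ^ 2 - x0 ^ 2 - x1 ^ 2) * M 2)) := by
      unfold nu
      rw [(hasFDerivAt_CD q hx).fderiv, norm_sq_eq]
      simp only [_root_.smul_apply, smul_eq_mul, pr_apply, _root_.add_apply, CD]
      have hx2 : (x : E3) 2 ≠ 0 := x.2.ne'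
      simp only [x0, x1, x2]
      field_simp
      ring
    rw [h1]
    have h2 : (2 * x2 * q.1 2)⁻¹ ≠ 0 := by positivity
    constructor
    · intro h
      exact (mul_eq_zero.1 h).resolve_left h2
    · intro h
      have h' : - M 2 * ‖(q : E3)‖ ^ 2 +
        (2 * x0 * M 2 - 2 * x2 * M 0) * q.1 0 + (2 * x1 * M 2 - 2 * x2 * M 1) * q.1 1 +
        (2 * x2 * x0 * M 0 + 2 * x2 * x1 * M 1 + (x2 ^ 2 - x0 ^ 2 - x1 ^ 2) * M 2) = 0 := h
      rw [h', mul_zero]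

theorem subset_PL (hΓ : Γ ≤ HIsom) (hd : IsDiscrete Γ) (ht : IsTorsionFree Γ)
    (hS : IsMinimalIn wt UH (Subtype.val '' S)) (hne : S.Nonempty)
    (hinv : ∀ γ ∈ Γ, ∀ q, γ q ∈ S ↔ q ∈ S)
    {D : Set H3} (hD : MeasurableSet D) (hcov : ∀ q : H3, ∃ γ ∈ Γ, γ q ∈ D)
    (hfinD : harea (D ∩ S) < ⊤)
    (hsum : ∀ s : ℝ, 1 < s → Summable fun γ : Γ => bs s (op γ) oo) :
    ∃ A B C E : ℝ, 0 < B ^ 2 + C ^ 2 - 4 * A * E ∧ S ⊆ PL A B C E := by
  have hSm := measurableSet_of_minimal hS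
  have hae := ae_tendsto hΓ hd ht hS hinv hD hcov hfinD hsum
  -- points with a full measure property meet every nonempty open part of the surface
  have hmeet : ∀ (P : H3 → Prop), (∀ᵐ q : H3 ∂(harea.restrict S), P q) → ∀ O : Set H3, IsOpen O →
      (S ∩ O).Nonempty → ∃ q ∈ S ∩ O, P q := by
    rintro P hP O hO ⟨q, hq, hqO⟩
    by_contra hcon
    push Not at hcon
    have h1 := harea_inter_pos hS hq hO hqO
    apply h1.ne'
    rw [ae_restrict_iff' hSm] at hP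
    apply measure_eq_zero_iff_ae_notMem.2
    filter_upwards [hP] with y hy hyS
    exact hcon y hyS (hy hyS.1)
  obtain ⟨x, ⟨hxS, -⟩, hx1, hx2⟩ := hmeet _ hae univ isOpen_univ (by simpa using hne)
  have hNx : ‖hS.normal x‖ = 1 := hS.norm_normal (mem_val_image.2 hxS)
  obtain ⟨A, B, C, E, hK, hPL⟩ := nu_zero_iff x hNx
  refine ⟨A, B, C, E, hK, ?_⟩
  by_contra hcon
  obtain ⟨y, hyS, hyP⟩ := Set.not_subset.1 hcon
  have hO : IsOpen ((PL A B C E)ᶜ) := by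
    have : IsClosed (PL A B C E) := isClosed_eq (by fun_prop) continuous_const
    exact this.isOpen_compl
  obtain ⟨q, ⟨hqS, hqP⟩, hq1, hq2⟩ := hmeet _ hae _ hO ⟨y, hyS, hyP⟩
  have hNq : ‖hS.normal q‖ = 1 := hS.norm_normal (mem_val_image.2 hqS)
  refine hqP ((hPL q).1 ?_)
  refine endgame (Γ := Γ) (sk := fun k : ℕ => 1 + (1 / 2 : ℝ) ^ k) (fun k => ⟨?_, ?_⟩)
    (fun k => hsum _ ?_) x q hNx hNq hx1 hq1 hq2
  · have : (0:ℝ) < (1 / 2) ^ k := by positivity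
    linarith
  · have : ((1:ℝ) / 2) ^ k ≤ 1 := pow_le_one₀ (by norm_num) (by norm_num)
    linarith
  · have : (0:ℝ) < (1 / 2) ^ k := by positivity
    linarith

theorem main {S : Set (Helper82.Mfd Γ)} (hΓ : Γ ≤ HIsom) (hd : IsDiscrete Γ) (ht : IsTorsionFree Γ)
    (p : H3) (hp : ∀ s : ℝ, 1 < s → Summable fun γ : Γ => coshDist p (γ.1 p) ^ (-s))
    (hS : Helper82.IsMinimalSurface Γ S) (ha : Helper82.area Γ S < ⊤) :
    ∃ A B C D : ℝ, 0 < B ^ 2 + C ^ 2 - 4 * A * D ∧ Helper82.lift Γ S = PL A B C D := by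
  unfold Helper82.area at ha
  simp only [iInf_lt_iff] at ha
  obtain ⟨D, hD, hcov, hfin⟩ := ha
  have hmin := hS.isMinimalIn
  have hne : (Helper82.lift Γ S).Nonempty := by
    obtain ⟨x, hx⟩ := hS.nonempty
    obtain ⟨q, rfl⟩ := Quotient.exists_rep x
    exact ⟨q, hx⟩
  obtain ⟨A, B, C, E, hK, hsub⟩ := subset_PL hΓ hd ht hmin hne
    (fun γ hγ q => mem_lift_smul hγ q) hD hcov hfin
    (fun s hs => summable_bs_oo_of hΓ (by linarith) p (hp s hs))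
  exact ⟨A, B, C, E, hK, eq_PL hK hmin hne hsub⟩

end Pool.Agent.Helper45.MS
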