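import Mathlib
import Pool.Agent.Helper45.MS.Est
import Pool.Agent.Helper82.Final

/-!
# The Poincare series diverges at the exponent one
-/

open MeasureTheory MeasureTheory.Measure Module Set Filter Topology
open scoped ENNReal NNReal Gradient RealInnerProductSpace ContDiff

namespace Pool.Agent.Helper45.MS

open Pool.Agent.Helper82

variable {Γ : Subgroup (Equiv.Perm H3)} {S : Set H3}

lemma one_eta_le (hΓ : Γ ≤ HIsom) (hd : IsDiscrete Γ) (ht : IsTorsionFree Γ)
    (hS : IsMinimalIn wt UH (Subtype.val '' S)) (hinv : ∀ γ ∈ Γ, ∀ q, γ q ∈ S ↔ q ∈ S)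
    {D : Set H3} (hD : MeasurableSet D) (hcov : ∀ q : H3, ∃ γ ∈ Γ, γ q ∈ D) {s : ℝ} (hs : 0 ≤ s)
    (hsum : Summable fun γ : Γ => bs s (op γ) oo) :
    ∫⁻ q in S, ENNReal.ofReal (bs s oo q / Ps Γ s q) ∂harea ≤ harea (D ∩ S) := by
  have hSm := measurableSet_of_minimal hS
  have hcont : Continuous (fun q : H3 => bs s oo q / Ps Γ s q) := by
    have h1 : Continuous (fun q : H3 => bs s oo q) :=
      continuous_restrict (contDiffOn_bs s oo).continuousOn
    have h2 : Continuous (fun q : H3 => Ps Γ s q) :=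
      continuous_restrict (contDiffOn_Ps hs hsum).continuousOn
    exact h1.div h2 fun q => (Ps_pos hs hsum q).ne'
  rw [unfold_lintegral hΓ hd ht hSm hinv hcont.measurable.ennreal_ofReal.aemeasurable]
  refine le_trans (le_of_eq ?_) (lintegral_et_le hΓ hd ht hSm hinv hD hcov)
  refine lintegral_congr fun q => ?_
  have h1 : HasSum (fun γ : Γ => bs s oo (γ • q : H3) / Ps Γ s (γ • q : H3)) 1 := by
    have h2 := (summable_bs hs hsum q).hasSum.div_const (Ps Γ s q)
    have h3 : (∑' γ : Γ, bs s (op γ) q) / Ps Γ s q = 1 := div_self (Ps_pos hs hsum q).ne'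
    rw [h3] at h2
    refine h2.congr_fun fun γ => ?_
    have h4 := bs_op_smul hΓ s 1 γ q
    rw [op_one, one_mul] at h4
    rw [h4, Ps_smul hΓ]
  rw [← ENNReal.ofReal_tsum_of_nonneg (fun γ => ?_) h1.summable, h1.tsum_eq, ENNReal.ofReal_one,
    mul_one]
  exact div_nonneg (bs_pos _ _ _).le (Ps_pos hs hsum _).le

theorem not_summable_one (hΓ : Γ ≤ HIsom) (hd : IsDiscrete Γ) (ht : IsTorsionFree Γ)
    (hS : IsMinimalIn wt UH (Subtype.val '' S)) (hne : S.Nonempty)
    (hinv : ∀ γ ∈ Γ, ∀ q, γ q ∈ S ↔ q ∈ S)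
    {D : Set H3} (hD : MeasurableSet D) (hcov : ∀ q : H3, ∃ γ ∈ Γ, γ q ∈ D)
    (hfinD : harea (D ∩ S) < ⊤) : ¬ Summable fun γ : Γ => bs 1 (op γ) oo := by
  intro hsum
  have hSm := measurableSet_of_minimal hS
  have hfin := (one_eta_le hΓ hd ht hS hinv hD hcov zero_le_one hsum).trans_lt hfinD
  obtain ⟨-, h2, h3, h4⟩ := fv_limit hS one_pos hsum hfin
  obtain ⟨h5, h6⟩ := unfold_integral hΓ hd ht hSm hinv h3
  have h7 : ∫ q in S, cross Γ 1 oo q (hS.normal q) ∂harea ≤ 0 := by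
    rw [h6]
    refine setIntegral_nonpos hSm fun q hq => ?_
    rw [tsum_cross_smul hΓ hS hinv zero_le_one hsum hq]
    have h8 := GT_nonneg Γ 1 q (hS.norm_normal (mem_val_image.2 hq))
    have h9 := et_pos hΓ hd ht q
    nlinarith [mul_nonneg h9.le h8]
  have hpos : ∀ q : H3, 0 < rt 1 oo q (hS.normal q) / Ps Γ 1 q := by
    intro q
    have h8 := CD_pos oo q
    have h9 := Ps_pos zero_le_one hsum q
    unfold rt
    positivity
  have h10 : ∫ q in S, rt 1 oo q (hS.normal q) / Ps Γ 1 q ∂harea = 0 := by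
    have h11 : 0 ≤ ∫ q in S, rt 1 oo q (hS.normal q) / Ps Γ 1 q ∂harea :=
      integral_nonneg fun q => (hpos q).le
    linarith
  rw [integral_eq_zero_iff_of_nonneg (fun q => (hpos q).le) h2] at h10
  obtain ⟨q, hq⟩ := hne
  have h12 := harea_inter_pos hS hq isOpen_univ (mem_univ q)
  apply h12.ne'
  rw [EventuallyEq, ae_restrict_iff' hSm] at h10
  apply measure_eq_zero_iff_ae_notMem.2
  filter_upwards [h10] with y hy hyS
  exact absurd (hy hyS.1) (hpos y).ne'

end Pool.Agent.Helper45.MS
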