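import Mathlib
import Pool.Agent.Helper45.MS.Main

/-!
# Two minimal surfaces of finite area coincide
-/

open MeasureTheory MeasureTheory.Measure Module Set Filter Topology
open scoped ENNReal NNReal Gradient RealInnerProductSpace ContDiff

namespace Pool.Agent.Helper45.MS

open Pool.Agent.Helper82

variable {Γ : Subgroup (Equiv.Perm H3)} {S S' : Set H3}

theorem two_subset_PL (hΓ : Γ ≤ HIsom) (hd : IsDiscrete Γ) (ht : IsTorsionFree Γ)
    (hS : IsMinimalIn wt UH (Subtype.val '' S)) (hne : S.Nonempty)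
    (hinv : ∀ γ ∈ Γ, ∀ q, γ q ∈ S ↔ q ∈ S)
    {D : Set H3} (hD : MeasurableSet D) (hcov : ∀ q : H3, ∃ γ ∈ Γ, γ q ∈ D)
    (hfinD : harea (D ∩ S) < ⊤)
    (hS' : IsMinimalIn wt UH (Subtype.val '' S'))
    (hinv' : ∀ γ ∈ Γ, ∀ q, γ q ∈ S' ↔ q ∈ S')
    {D' : Set H3} (hD' : MeasurableSet D') (hcov' : ∀ q : H3, ∃ γ ∈ Γ, γ q ∈ D')
    (hfinD' : harea (D' ∩ S') < ⊤)
    (hsum : ∀ s : ℝ, 1 < s → Summable fun γ : Γ => bs s (op γ) oo) :
    ∃ A B C E : ℝ, 0 < B ^ 2 + C ^ 2 - 4 * A * E ∧ S ⊆ PL A B C E ∧ S' ⊆ PL A B C E := by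
  -- points with a full measure property meet every nonempty open part of the surface
  have hmeet : ∀ (T : Set H3), IsMinimalIn wt UH (Subtype.val '' T) → ∀ (P : H3 → Prop),
      (∀ᵐ q : H3 ∂(harea.restrict T), P q) → ∀ O : Set H3, IsOpen O →
      (T ∩ O).Nonempty → ∃ q ∈ T ∩ O, P q := by
    rintro T hT P hP O hO ⟨q, hq, hqO⟩
    by_contra hcon
    push Not at hcon
    have h1 := harea_inter_pos hT hq hO hqO
    apply h1.ne'
    rw [ae_restrict_iff' (measurableSet_of_minimal hT)] at hP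
    apply measure_eq_zero_iff_ae_notMem.2
    filter_upwards [hP] with y hy hyS
    exact hcon y hyS (hy hyS.1)
  obtain ⟨x, ⟨hxS, -⟩, hx1, hx2⟩ := hmeet S hS _
    (ae_tendsto hΓ hd ht hS hinv hD hcov hfinD hsum) univ isOpen_univ (by simpa using hne)
  have hNx : ‖hS.normal x‖ = 1 := hS.norm_normal (mem_val_image.2 hxS)
  obtain ⟨A, B, C, E, hK, hPL⟩ := nu_zero_iff x hNx
  have hO : IsOpen ((PL A B C E)ᶜ) := by
    have : IsClosed (PL A B C E) := isClosed_eq (by fun_prop) continuous_const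
    exact this.isOpen_compl
  have key : ∀ (T : Set H3) (hT : IsMinimalIn wt UH (Subtype.val '' T))
      (_ : ∀ γ ∈ Γ, ∀ q, γ q ∈ T ↔ q ∈ T) (W : Set H3) (_ : MeasurableSet W)
      (_ : ∀ q : H3, ∃ γ ∈ Γ, γ q ∈ W) (_ : harea (W ∩ T) < ⊤), T ⊆ PL A B C E := by
    intro T hT hinvT W hW hcovW hfinW
    by_contra hcon
    obtain ⟨y, hyS, hyP⟩ := Set.not_subset.1 hcon
    obtain ⟨q, ⟨hqS, hqP⟩, hq1, hq2⟩ := hmeet T hT _
      (ae_tendsto hΓ hd ht hT hinvT hW hcovW hfinW hsum) _ hO ⟨y, hyS, hyP⟩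
    have hNq : ‖hT.normal q‖ = 1 := hT.norm_normal (mem_val_image.2 hqS)
    refine hqP ((hPL q).1 ?_)
    refine endgame (Γ := Γ) (sk := fun k : ℕ => 1 + (1 / 2 : ℝ) ^ k) (fun k => ⟨?_, ?_⟩)
      (fun k => hsum _ ?_) x q hNx hNq hx1 hq1 hq2
    · have : (0:ℝ) < (1 / 2) ^ k := by positivity
      linarith
    · have : ((1:ℝ) / 2) ^ k ≤ 1 := pow_le_one₀ (by norm_num) (by norm_num)
      linarith
    · have : (0:ℝ) < (1 / 2) ^ k := by positivity
      linarith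
  exact ⟨A, B, C, E, hK, key S hS hinv D hD hcov hfinD, key S' hS' hinv' D' hD' hcov' hfinD'⟩

theorem unique {S S' : Set (Helper82.Mfd Γ)} (hΓ : Γ ≤ HIsom) (hd : IsDiscrete Γ)
    (ht : IsTorsionFree Γ) (p : H3)
    (hp : ∀ s : ℝ, 1 < s → Summable fun γ : Γ => coshDist p (γ.1 p) ^ (-s))
    (hS : Helper82.IsMinimalSurface Γ S) (ha : Helper82.area Γ S < ⊤)
    (hS' : Helper82.IsMinimalSurface Γ S') (ha' : Helper82.area Γ S' < ⊤) : S' = S := by
  unfold Helper82.area at ha ha'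
  simp only [iInf_lt_iff] at ha ha'
  obtain ⟨D, hD, hcov, hfin⟩ := ha
  obtain ⟨D', hD', hcov', hfin'⟩ := ha'
  have hne : ∀ T : Set (Helper82.Mfd Γ), Helper82.IsMinimalSurface Γ T →
      (Helper82.lift Γ T).Nonempty := by
    intro T hT
    obtain ⟨x, hx⟩ := hT.nonempty
    obtain ⟨q, rfl⟩ := Quotient.exists_rep x
    exact ⟨q, hx⟩
  obtain ⟨A, B, C, E, hK, hsub, hsub'⟩ := two_subset_PL hΓ hd ht hS.isMinimalIn (hne S hS)
    (fun γ hγ q => mem_lift_smul hγ q) hD hcov hfin hS'.isMinimalIn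
    (fun γ hγ q => mem_lift_smul hγ q) hD' hcov' hfin'
    (fun s hs => summable_bs_oo_of hΓ (by linarith) p (hp s hs))
  have h1 := eq_PL hK hS.isMinimalIn (hne S hS) hsub
  have h2 := eq_PL hK hS'.isMinimalIn (hne S' hS') hsub'
  ext x
  obtain ⟨q, rfl⟩ := Quotient.exists_rep x
  have h3 : q ∈ Helper82.lift Γ S' ↔ q ∈ Helper82.lift Γ S := by rw [h1, h2]
  exact h3

end Pool.Agent.Helper45.MS
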